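import Pool.Agent.X41.Stern.Region

/-!
# Irreducibility of the Stern polynomials with prime index
-/

namespace Pool.Agent.X41.Stern

open Polynomial

lemma aeval_conj' (g : ℤ[X]) (t : ℂ) :
    aeval ((starRingEnd ℂ) t) g = (starRingEnd ℂ) (aeval t g) := by
  have := Polynomial.aeval_algHom_apply ((starRingEnd ℂ).toIntAlgHom) t g
  simpa using this

lemma nv_conj {t : ℂ} (h : NV ((starRingEnd ℂ) t)) : NV t := by
  intro n hn h0
  apply h n hn
  unfold b at h0 ⊢
  rw [aeval_conj', h0, map_zero]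

/-- the zero-free region -/
theorem nv_all {t : ℂ} (hn : ¬ Fpos t.re (t.im ^ 2)) : NV t := by
  rcases le_total 0 t.im with h | h
  · exact nv_upper (x := t.re) (y := t.im) h hn
  · apply nv_conj
    have e : (starRingEnd ℂ) t = ⟨t.re, -t.im⟩ := by
      apply Complex.ext <;> simp
    rw [e]
    apply nv_upper (by linarith)
    rwa [neg_sq]

/-- the root `(3 + √3 i) / 2` of `t^2 - 3 t + 3` -/
noncomputable def t0 : ℂ := ⟨3 / 2, Real.sqrt 3 / 2⟩

lemma sqrt3_sq : Real.sqrt 3 * Real.sqrt 3 = 3 := Real.mul_self_sqrt (by norm_num)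

lemma t0_sq : t0 ^ 2 = 3 * t0 - 3 := by
  have h := sqrt3_sq
  rw [sq]
  unfold t0
  apply Complex.ext
  · simp
    nlinarith
  · simp
    ring

lemma nv_t0 : NV t0 := by
  have h := sqrt3_sq
  have h0 := Real.sqrt_nonneg 3
  have hb : BoxCond (3 / 2) (3 / 2) (866 / 1000) (8661 / 10000) (153 / 100) (-(87 / 100)) (145 / 100)
      (173203 / 100000) := by
    unfold BoxCond Cor nf
    norm_num
  apply nv_box hb le_rfl le_rfl <;> nlinarith

lemma normSq_g (x y : ℝ) :
    Complex.normSq (t0 - ⟨x, y⟩) * Complex.normSq ((starRingEnd ℂ) t0 - ⟨x, y⟩) =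
      (y ^ 2) ^ 2 + y ^ 2 * (2 * (x - 3 / 2) ^ 2 - 3 / 2) + ((x - 3 / 2) ^ 2 + 3 / 4) ^ 2 := by
  have h := sqrt3_sq
  rw [Complex.normSq_apply, Complex.normSq_apply]
  unfold t0
  simp only [Complex.sub_re, Complex.sub_im, Complex.conj_re, Complex.conj_im]
  set w := Real.sqrt 3 with hw
  have e : ((3 / 2 - x) * (3 / 2 - x) + (w / 2 - y) * (w / 2 - y)) *
      ((3 / 2 - x) * (3 / 2 - x) + (-(w / 2) - y) * (-(w / 2) - y)) =
      (((x - 3 / 2) ^ 2 + y ^ 2 + w * w / 4) ^ 2 - (w * w) * y ^ 2) := by ring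
  rw [e, h]
  ring

lemma fpos_norm {t : ℂ} (h : Fpos t.re (t.im ^ 2)) :
    ‖1 - t‖ * (‖t0 - t‖ * ‖(starRingEnd ℂ) t0 - t‖) < ‖2 - t‖ ^ 4 := by
  have h1 : (‖1 - t‖ * (‖t0 - t‖ * ‖(starRingEnd ℂ) t0 - t‖)) ^ 2 < (‖2 - t‖ ^ 4) ^ 2 := by
    rw [mul_pow, mul_pow, ← pow_mul, show 4 * 2 = 2 * 4 by norm_num, pow_mul]
    simp only [← Complex.normSq_eq_norm_sq]
    have e := normSq_g t.re t.im
    have et : (⟨t.re, t.im⟩ : ℂ) = t := rfl
    rw [et] at e
    rw [e]
    have e1 : Complex.normSq (1 - t) = (t.re - 1) ^ 2 + t.im ^ 2 := by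
      rw [Complex.normSq_apply]
      simp
      ring
    have e2 : Complex.normSq (2 - t) = (t.re - 2) ^ 2 + t.im ^ 2 := by
      rw [Complex.normSq_apply]
      simp
      ring
    rw [e1, e2]
    exact h
  exact lt_of_pow_lt_pow_left₀ 2 (by positivity) h1

/-- values at `t0` of integer polynomials -/
lemma t0_rep (g : ℤ[X]) : ∃ u v : ℤ, aeval t0 g = u + v * t0 := by
  induction g using Polynomial.induction_on with
  | C a => exact ⟨a, 0, by simp⟩
  | add p q hp hq =>
    obtain ⟨u, v, h⟩ := hp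
    obtain ⟨u', v', h'⟩ := hq
    refine ⟨u + u', v + v', ?_⟩
    rw [map_add, h, h']
    push_cast
    ring
  | monomial n a h =>
    obtain ⟨u, v, h⟩ := h
    refine ⟨-3 * v, u + 3 * v, ?_⟩
    have e : (C a * X ^ (n + 1) : ℤ[X]) = C a * X ^ n * X := by ring
    rw [e, map_mul, h, aeval_X]
    push_cast
    have := t0_sq
    linear_combination (v : ℂ) * this

lemma one_le_normSq_t0 (g : ℤ[X]) (h : aeval t0 g ≠ 0) : 1 ≤ ‖aeval t0 g‖ ^ 2 := by
  obtain ⟨u, v, e⟩ := t0_rep g
  have h1 : ‖aeval t0 g‖ ^ 2 = ((u ^ 2 + 3 * u * v + 3 * v ^ 2 : ℤ) : ℝ) := by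
    rw [← Complex.normSq_eq_norm_sq, e, Complex.normSq_apply]
    unfold t0
    simp
    have := sqrt3_sq
    nlinarith
  have h2 : (0 : ℝ) < ‖aeval t0 g‖ ^ 2 := by
    have := norm_pos_iff.2 h
    positivity
  rw [h1] at h2 ⊢
  have h3 : (0 : ℤ) < u ^ 2 + 3 * u * v + 3 * v ^ 2 := by exact_mod_cast h2
  exact_mod_cast h3

lemma norm_prod' (z : ℂ) (s : Multiset ℂ) :
    ‖(s.map (fun α => z - α)).prod‖ = (s.map (fun α => ‖z - α‖)).prod := by
  induction s using Multiset.induction_on with
  | empty => simp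
  | cons a s ih => simp [ih]

lemma prod_lt (s : Multiset ℂ) (f g : ℂ → ℝ) (h : ∀ α ∈ s, 0 ≤ g α ∧ g α < f α) :
    0 ≤ (s.map g).prod ∧ (s.map g).prod ≤ (s.map f).prod ∧
      (s ≠ 0 → (s.map g).prod < (s.map f).prod) := by
  induction s using Multiset.induction_on with
  | empty => simp
  | cons a s ih =>
    have h1 := ih (fun α hα => h α (Multiset.mem_cons_of_mem hα))
    obtain ⟨i1, i2, -⟩ := h1
    obtain ⟨j1, j2⟩ := h a (Multiset.mem_cons_self a s)
    simp only [Multiset.map_cons, Multiset.prod_cons]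
    have hfpos : 0 < (s.map f).prod := by
      have : ∀ s : Multiset ℂ, (∀ α ∈ s, 0 < f α) → 0 < (s.map f).prod := by
        intro s
        induction s using Multiset.induction_on with
        | empty => simp
        | cons b s ihs =>
          intro hs
          simp only [Multiset.map_cons, Multiset.prod_cons]
          exact mul_pos (hs b (Multiset.mem_cons_self b s))
            (ihs fun α hα => hs α (Multiset.mem_cons_of_mem hα))
      apply this
      intro α hα
      obtain ⟨k1, k2⟩ := h α (Multiset.mem_cons_of_mem hα)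
      exact lt_of_le_of_lt k1 k2
    have hlt : g a * (s.map g).prod < f a * (s.map f).prod := by
      calc g a * (s.map g).prod ≤ g a * (s.map f).prod := mul_le_mul_of_nonneg_left i2 j1
        _ < f a * (s.map f).prod := mul_lt_mul_of_pos_right j2 hfpos
    exact ⟨mul_nonneg j1 i1, hlt.le, fun _ => hlt⟩

lemma prod_mul3 (s : Multiset ℂ) (f g h : ℂ → ℝ) :
    (s.map (fun α => f α * (g α * h α))).prod = (s.map f).prod * ((s.map g).prod * (s.map h).prod) := by
  rw [Multiset.prod_map_mul, Multiset.prod_map_mul]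

lemma prod_pow4 (s : Multiset ℂ) (f : ℂ → ℝ) :
    (s.map (fun α => f α ^ 4)).prod = (s.map f).prod ^ 4 := by
  rw [Multiset.prod_map_pow]

/-- An integer polynomial `g` of positive degree all of whose roots satisfy the auxiliary inequality
and which does not vanish at `1` and at `t0` has `|g(2)| ≠ 1`. -/
lemma key (g : ℤ[X]) (hdeg : 1 ≤ g.natDegree)
    (hroot : ∀ α : ℂ, aeval α g = 0 → Fpos α.re (α.im ^ 2))
    (h1 : g.eval 1 ≠ 0) (ht0 : aeval t0 g ≠ 0) : |g.eval 2| ≠ 1 := by
  intro h2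
  have hg0 : g ≠ 0 := by
    rintro rfl
    simp at hdeg
  have hsp : (g.map (algebraMap ℤ ℂ)).Splits := IsAlgClosed.splits _
  set s := g.aroots ℂ with hs
  set L : ℝ := ‖(algebraMap ℤ ℂ) g.leadingCoeff‖ with hL
  have hval : ∀ z : ℂ, ‖aeval z g‖ = L * (s.map (fun α => ‖z - α‖)).prod := by
    intro z
    have e := hsp.eval_eq_prod_roots z
    rw [eval_map_algebraMap, leadingCoeff_map_of_injective (algebraMap ℤ ℂ).injective_int] at e
    rw [e, norm_mul, norm_prod']
  have hL1 : 1 ≤ L := by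
    have : (1 : ℤ) ≤ |g.leadingCoeff| := Int.one_le_abs (leadingCoeff_ne_zero.2 hg0)
    rw [hL, eq_intCast, Complex.norm_intCast]
    exact_mod_cast this
  have hsne : s ≠ 0 := by
    have hc : Multiset.card s = g.natDegree := by
      have := hsp.natDegree_eq_card_roots
      rw [natDegree_map_eq_of_injective (algebraMap ℤ ℂ).injective_int] at this
      exact this.symm
    intro h0
    rw [h0] at hc
    simp at hc
    omega
  have hmem : ∀ α ∈ s, aeval α g = 0 := by
    intro α hα
    exact (mem_aroots.1 hα).2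
  obtain ⟨-, -, hlt⟩ := prod_lt s (fun α => ‖2 - α‖ ^ 4)
    (fun α => ‖1 - α‖ * (‖t0 - α‖ * ‖(starRingEnd ℂ) t0 - α‖))
    (fun α hα => ⟨by positivity, fpos_norm (hroot α (hmem α hα))⟩)
  have hlt' := hlt hsne
  rw [prod_mul3, prod_pow4] at hlt'
  have e2 : ‖aeval (2 : ℂ) g‖ = 1 := by
    have : aeval (2 : ℂ) g = ((g.eval 2 : ℤ) : ℂ) := by
      have := Polynomial.aeval_algebraMap_apply ℂ (2 : ℤ) g
      simpa using this
    rw [this, Complex.norm_intCast]
    exact_mod_cast h2
  have e1 : 1 ≤ ‖aeval (1 : ℂ) g‖ := by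
    have : aeval (1 : ℂ) g = ((g.eval 1 : ℤ) : ℂ) := by
      have := Polynomial.aeval_algebraMap_apply ℂ (1 : ℤ) g
      simpa using this
    rw [this, Complex.norm_intCast]
    exact_mod_cast Int.one_le_abs h1
  have e3 : 1 ≤ ‖aeval t0 g‖ * ‖aeval ((starRingEnd ℂ) t0) g‖ := by
    rw [aeval_conj', RCLike.norm_conj, ← sq]
    exact one_le_normSq_t0 g ht0
  rw [hval] at e2 e1
  rw [hval, hval] at e3
  set P2 := (s.map (fun α => ‖2 - α‖)).prod
  set P1 := (s.map (fun α => ‖1 - α‖)).prod
  set Pa := (s.map (fun α => ‖t0 - α‖)).prod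
  set Pb := (s.map (fun α => ‖(starRingEnd ℂ) t0 - α‖)).prod
  have hL0 : 0 < L := by linarith
  have f1 : L ^ 4 * (P1 * (Pa * Pb)) < L ^ 4 * P2 ^ 4 :=
    mul_lt_mul_of_pos_left hlt' (by positivity)
  have f2 : L ^ 4 * P2 ^ 4 = 1 := by rw [← mul_pow, e2, one_pow]
  have f3 : L ^ 4 * (P1 * (Pa * Pb)) = L * ((L * P1) * ((L * Pa) * (L * Pb))) := by ring
  have f4 : 1 ≤ L * ((L * P1) * ((L * Pa) * (L * Pb))) := by
    have g1 : 1 ≤ (L * P1) * ((L * Pa) * (L * Pb)) := by
      calc (1 : ℝ) = 1 * 1 := by norm_num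
        _ ≤ (L * P1) * ((L * Pa) * (L * Pb)) := mul_le_mul e1 e3 (by norm_num) (by linarith)
    calc (1 : ℝ) = 1 * 1 := by norm_num
      _ ≤ L * ((L * P1) * ((L * Pa) * (L * Pb))) := mul_le_mul hL1 g1 (by norm_num) hL0.le
  linarith

lemma eval_two (n : ℕ) : (B n).eval 2 = (n : ℤ) := by
  induction n using Nat.strong_induction_on with
  | _ n ih =>
    rcases Nat.lt_or_ge n 2 with h2 | h2
    · interval_cases n
      · simp [B_zero]
      · simp [B_one]
    · rcases Nat.even_or_odd' n with ⟨m, rfl | rfl⟩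
      · rw [B_even m (by omega), eval_mul, eval_X, ih m (by omega)]
        push_cast
        ring
      · rw [B_odd m (by omega), eval_add, ih m (by omega), ih (m + 1) (by omega)]
        push_cast
        ring

lemma eval_one_pos (n : ℕ) (hn : 1 ≤ n) : 0 < (B n).eval 1 := by
  induction n using Nat.strong_induction_on with
  | _ n ih =>
    rcases Nat.lt_or_ge n 2 with h2 | h2
    · have : n = 1 := by omega
      subst this
      simp [B_one]
    · rcases Nat.even_or_odd' n with ⟨m, rfl | rfl⟩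
      · rw [B_even m (by omega), eval_mul, eval_X, one_mul]
        exact ih m (by omega) (by omega)
      · rw [B_odd m (by omega), eval_add]
        exact add_pos (ih m (by omega) (by omega)) (ih (m + 1) (by omega) (by omega))

lemma eval_one_lt (n : ℕ) : (n = 1 → (B n).eval 1 = 1) ∧ (2 ≤ n → (B n).eval 1 < n) := by
  induction n using Nat.strong_induction_on with
  | _ n ih =>
    refine ⟨?_, ?_⟩
    · rintro rfl
      simp [B_one]
    · intro h2
      have hle : ∀ m, m < n → 1 ≤ m → (B m).eval 1 ≤ m := by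
        intro m hm h1
        rcases Nat.lt_or_ge m 2 with h3 | h3
        · have : m = 1 := by omega
          subst this
          rw [(ih 1 hm).1 rfl]
          norm_num
        · exact ((ih m hm).2 h3).le
      rcases Nat.even_or_odd' n with ⟨m, rfl | rfl⟩
      · rw [B_even m (by omega), eval_mul, eval_X, one_mul]
        have := hle m (by omega) (by omega)
        push_cast
        have : (1 : ℤ) ≤ m := by exact_mod_cast (by omega : 1 ≤ m)
        linarith
      · rw [B_odd m (by omega), eval_add]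
        have h3 := hle m (by omega) (by omega)
        have h4 := (ih (m + 1) (by omega)).2 (by omega)
        push_cast at h4 ⊢
        linarith

lemma natDegree_ne (n : ℕ) (hn : 2 ≤ n) : (B n).natDegree ≠ 0 := by
  intro h0
  rw [natDegree_eq_zero] at h0
  obtain ⟨c, hc⟩ := h0
  have h2 := eval_two n
  have h1 := (eval_one_lt n).2 hn
  rw [← hc, eval_C] at h1 h2
  rw [h2] at h1
  exact lt_irrefl _ h1

/-- A divisor of `B n`, `n ≥ 1`, with `|g(2)| = 1` is a unit. -/
lemma isUnit_of (n : ℕ) (hn : 1 ≤ n) (g : ℤ[X]) (hg : g ∣ B n) (h2 : |g.eval 2| = 1) :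
    IsUnit g := by
  by_cases hdeg : 1 ≤ g.natDegree
  · exfalso
    refine key g hdeg ?_ ?_ ?_ h2
    · intro α hα
      by_contra hF
      apply nv_all hF n hn
      obtain ⟨q, hq⟩ := hg
      unfold b
      rw [hq, map_mul, hα, zero_mul]
    · intro h0
      have := eval_one_pos n hn
      obtain ⟨q, hq⟩ := hg
      rw [hq, eval_mul, h0, zero_mul] at this
      exact lt_irrefl _ this
    · intro h0
      apply nv_t0 n hn
      obtain ⟨q, hq⟩ := hg
      unfold b
      rw [hq, map_mul, h0, zero_mul]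
  · have h0 : g.natDegree = 0 := by omega
    rw [natDegree_eq_zero] at h0
    obtain ⟨c, rfl⟩ := h0
    rw [eval_C] at h2
    rw [isUnit_C]
    exact Int.isUnit_iff_abs_eq.2 h2

/-- `B p` is irreducible over the integers for every prime `p`. -/
theorem irreducible_int (p : ℕ) (hp : p.Prime) : Irreducible (B p) := by
  have hp1 : 1 ≤ p := hp.one_le
  constructor
  · intro hu
    have h2 : IsUnit ((B p).eval 2) := by
      have := hu.map (Polynomial.evalRingHom (2 : ℤ))
      simpa using this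
    rw [eval_two, Int.isUnit_iff] at h2
    have := hp.two_le
    omega
  · intro f g hfg
    have h2 : (B p).eval 2 = f.eval 2 * g.eval 2 := by rw [hfg, eval_mul]
    rw [eval_two] at h2
    have hpp : Prime (p : ℤ) := Nat.prime_iff_prime_int.1 hp
    have hirr := hpp.irreducible
    rcases hirr.isUnit_or_isUnit h2 with hu | hu
    · left
      exact isUnit_of p hp1 f (Dvd.intro _ hfg.symm) (Int.isUnit_iff_abs_eq.1 hu)
    · right
      exact isUnit_of p hp1 g (Dvd.intro_left _ hfg.symm) (Int.isUnit_iff_abs_eq.1 hu)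

end Pool.Agent.X41.Stern
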