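import Pool.Agent.X41.Stern.Core

/-!
# The criterion on a box
-/

namespace Pool.Agent.X41.Stern

lemma conv1 (A B K M x0 x1 x : ℝ) (hA : 0 ≤ A) (h0 : A * x0 ^ 2 + B * x0 + K ≤ M)
    (h1 : A * x1 ^ 2 + B * x1 + K ≤ M) (hx0 : x0 ≤ x) (hx1 : x ≤ x1) :
    A * x ^ 2 + B * x + K ≤ M := by
  rcases eq_or_lt_of_le (hx0.trans hx1) with h | h
  · have : x = x0 := le_antisymm (by rw [h]; exact hx1) hx0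
    rw [this]
    exact h0
  · have e : (x1 - x0) * (A * x ^ 2 + B * x + K) = (x1 - x) * (A * x0 ^ 2 + B * x0 + K) +
        (x - x0) * (A * x1 ^ 2 + B * x1 + K) - A * ((x1 - x0) * ((x1 - x) * (x - x0))) := by ring
    have h2 : (x1 - x0) * (A * x ^ 2 + B * x + K) ≤ (x1 - x0) * M := by
      rw [e]
      have h3 := mul_le_mul_of_nonneg_left h0 (sub_nonneg.2 hx1)
      have h4 := mul_le_mul_of_nonneg_left h1 (sub_nonneg.2 hx0)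
      have h5 : 0 ≤ A * ((x1 - x0) * ((x1 - x) * (x - x0))) :=
        mul_nonneg hA (mul_nonneg (sub_nonneg.2 h.le) (mul_nonneg (sub_nonneg.2 hx1) (sub_nonneg.2 hx0)))
      linarith
    exact le_of_mul_le_mul_left h2 (sub_pos.2 h)

/-- `|p + q (x + i y)|^2` for `p = p1 + i p2`, `q = q1 + i q2` -/
def nf (p1 p2 q1 q2 x y : ℝ) : ℝ := (p1 + q1 * x - q2 * y) ^ 2 + (p2 + q1 * y + q2 * x) ^ 2

/-- the bound `M` at the four corners -/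
def Cor (p1 p2 q1 q2 x0 x1 y0 y1 M : ℝ) : Prop :=
  nf p1 p2 q1 q2 x0 y0 ≤ M ∧ nf p1 p2 q1 q2 x0 y1 ≤ M ∧ nf p1 p2 q1 q2 x1 y0 ≤ M ∧
    nf p1 p2 q1 q2 x1 y1 ≤ M

lemma nf_le {p1 p2 q1 q2 x0 x1 y0 y1 M x y : ℝ} (h : Cor p1 p2 q1 q2 x0 x1 y0 y1 M)
    (hx0 : x0 ≤ x) (hx1 : x ≤ x1) (hy0 : y0 ≤ y) (hy1 : y ≤ y1) : nf p1 p2 q1 q2 x y ≤ M := by
  obtain ⟨h00, h01, h10, h11⟩ := h
  have hA : 0 ≤ q1 ^ 2 + q2 ^ 2 := by positivity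
  have hy : ∀ z : ℝ, nf p1 p2 q1 q2 z y0 ≤ M → nf p1 p2 q1 q2 z y1 ≤ M →
      nf p1 p2 q1 q2 z y ≤ M := by
    intro z h0 h1
    have e : ∀ w : ℝ, nf p1 p2 q1 q2 z w = (q1 ^ 2 + q2 ^ 2) * w ^ 2 +
        (2 * (p2 * q1 - p1 * q2)) * w + ((p1 + q1 * z) ^ 2 + (p2 + q2 * z) ^ 2) := by
      intro w
      unfold nf
      ring
    rw [e] at h0 h1 ⊢
    exact conv1 _ _ _ _ _ _ _ hA h0 h1 hy0 hy1
  have h0 := hy x0 h00 h01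
  have h1 := hy x1 h10 h11
  have e : ∀ w : ℝ, nf p1 p2 q1 q2 w y = (q1 ^ 2 + q2 ^ 2) * w ^ 2 +
      (2 * (p1 * q1 + p2 * q2)) * w + ((p1 - q2 * y) ^ 2 + (p2 + q1 * y) ^ 2) := by
    intro w
    unfold nf
    ring
  rw [e] at h0 h1 ⊢
  exact conv1 _ _ _ _ _ _ _ hA h0 h1 hx0 hx1

lemma norm_le_of_nf {p q : ℂ} {x y M : ℝ} (hM : 0 ≤ M)
    (h : nf p.re p.im q.re q.im x y ≤ M ^ 2) : ‖p + q * (⟨x, y⟩ : ℂ)‖ ≤ M := by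
  rw [← pow_le_pow_iff_left₀ (norm_nonneg _) hM two_ne_zero, ← Complex.normSq_eq_norm_sq]
  refine le_trans (le_of_eq ?_) h
  rw [Complex.normSq_apply]
  simp only [Complex.add_re, Complex.add_im, Complex.mul_re, Complex.mul_im]
  unfold nf
  ring

/-- All inequalities for a box `[x0, x1] × [y0, y1]`, the centre `a1 + i a2`, the radius `r` and a
lower bound `T` for the absolute value in the box. -/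
def BoxCond (x0 x1 y0 y1 a1 a2 r T : ℝ) : Prop :=
  (0 < r ∧ 0 < a1 ^ 2 + a2 ^ 2 - r ^ 2 ∧ 0 ≤ T ∧ T ^ 2 ≤ x0 ^ 2 + y0 ^ 2 ∧ 0 ≤ x0 ∧ 0 ≤ y0 ∧
    r ^ 2 < (1 + a1) ^ 2 + a2 ^ 2 ∧ 0 ≤ r * T - r ∧ 0 ≤ (a1 ^ 2 + a2 ^ 2 - r ^ 2) * r * T - r) ∧
  Cor (1 + a1) a2 (-a1) (-a2) x0 x1 y0 y1 ((r * T - r) ^ 2) ∧
  Cor ((a1 ^ 2 + a2 ^ 2 - r ^ 2) + a1) (-a2) (-((a1 ^ 2 + a2 ^ 2 - r ^ 2) * a1))
    (-((a1 ^ 2 + a2 ^ 2 - r ^ 2) * a2)) x0 x1 y0 y1 (((a1 ^ 2 + a2 ^ 2 - r ^ 2) * r * T - r) ^ 2) ∧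
  (Cor (-a1) (-a2) 1 0 x0 x1 y0 y1 (r ^ 2) ∨ Cor 1 0 (-a1) (-a2) x0 x1 y0 y1 ((r * T) ^ 2))

lemma crit_of_box {x0 x1 y0 y1 a1 a2 r T x y : ℝ} (h : BoxCond x0 x1 y0 y1 a1 a2 r T)
    (hx0 : x0 ≤ x) (hx1 : x ≤ x1) (hy0 : y0 ≤ y) (hy1 : y ≤ y1) :
    Crit (⟨x, y⟩ : ℂ) (⟨a1, a2⟩ : ℂ) r := by
  obtain ⟨⟨hr, hΔ, hT0, hT, h0x, h0y, h4, hm1, hm2⟩, hc1, hc2, hc3⟩ := h
  have hN : Complex.normSq (⟨a1, a2⟩ : ℂ) - r ^ 2 = a1 ^ 2 + a2 ^ 2 - r ^ 2 := by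
    rw [Complex.normSq_mk]
    ring
  have hTn : T ≤ ‖(⟨x, y⟩ : ℂ)‖ := by
    rw [← pow_le_pow_iff_left₀ hT0 (norm_nonneg _) two_ne_zero, ← Complex.normSq_eq_norm_sq,
      Complex.normSq_mk]
    nlinarith
  refine ⟨hr, by rw [hN]; exact hΔ, ?_, ?_, ?_, ?_⟩
  · have h1 := nf_le hc1 hx0 hx1 hy0 hy1
    have h2 := norm_le_of_nf (p := (⟨1 + a1, a2⟩ : ℂ)) (q := (⟨-a1, -a2⟩ : ℂ)) hm1 h1
    have e : (1 : ℂ) + ⟨a1, a2⟩ - ⟨a1, a2⟩ * ⟨x, y⟩ = ⟨1 + a1, a2⟩ + ⟨-a1, -a2⟩ * ⟨x, y⟩ := by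
      apply Complex.ext <;> simp <;> ring
    rw [e]
    have h3 := mul_le_mul_of_nonneg_left hTn hr.le
    linarith
  · rw [hN]
    have h1 := nf_le hc2 hx0 hx1 hy0 hy1
    set Δ := a1 ^ 2 + a2 ^ 2 - r ^ 2 with hΔd
    have h2 := norm_le_of_nf (p := (⟨Δ + a1, -a2⟩ : ℂ)) (q := (⟨-(Δ * a1), -(Δ * a2)⟩ : ℂ)) hm2 h1
    have e : (Δ : ℂ) * (1 - ⟨a1, a2⟩ * ⟨x, y⟩) + (starRingEnd ℂ) ⟨a1, a2⟩ =
        ⟨Δ + a1, -a2⟩ + ⟨-(Δ * a1), -(Δ * a2)⟩ * ⟨x, y⟩ := by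
      apply Complex.ext <;> simp <;> ring
    rw [e]
    have h3 := mul_le_mul_of_nonneg_left hTn (mul_nonneg hΔ.le hr.le)
    linarith
  · rcases hc3 with hc3 | hc3
    · left
      have h1 := nf_le hc3 hx0 hx1 hy0 hy1
      have h2 := norm_le_of_nf (p := (⟨-a1, -a2⟩ : ℂ)) (q := (⟨1, 0⟩ : ℂ)) hr.le h1
      have e : (⟨x, y⟩ : ℂ) - ⟨a1, a2⟩ = ⟨-a1, -a2⟩ + ⟨1, 0⟩ * ⟨x, y⟩ := by
        apply Complex.ext <;> simp <;> ring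
      rw [e]
      exact h2
    · right
      have h1 := nf_le hc3 hx0 hx1 hy0 hy1
      have h2 := norm_le_of_nf (p := (⟨1, 0⟩ : ℂ)) (q := (⟨-a1, -a2⟩ : ℂ))
        (mul_nonneg hr.le hT0) h1
      have e : (1 : ℂ) - ⟨a1, a2⟩ * ⟨x, y⟩ = ⟨1, 0⟩ + ⟨-a1, -a2⟩ * ⟨x, y⟩ := by
        apply Complex.ext <;> simp <;> ring
      rw [e]
      exact h2.trans (mul_le_mul_of_nonneg_left hTn hr.le)
  · rw [← pow_lt_pow_iff_left₀ hr.le (norm_nonneg _) two_ne_zero, ← Complex.normSq_eq_norm_sq,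
      Complex.normSq_apply]
    simp
    nlinarith

/-- nonvanishing in a box -/
theorem nv_box {x0 x1 y0 y1 a1 a2 r T x y : ℝ} (h : BoxCond x0 x1 y0 y1 a1 a2 r T)
    (hx0 : x0 ≤ x) (hx1 : x ≤ x1) (hy0 : y0 ≤ y) (hy1 : y ≤ y1) : NV (⟨x, y⟩ : ℂ) :=
  nv_of_crit (crit_of_box h hx0 hx1 hy0 hy1)

end Pool.Agent.X41.Stern
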