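import Mathlib

/-!
# Stern polynomials: definition and the invariant disc criterion for their nonvanishing
-/

namespace Pool.Agent.X41.Stern

open Polynomial

/-- The Stern polynomials: `B 0 = 0`, `B 1 = 1`, `B (2 n) = t B n`, `B (2 n + 1) = B n + B (n + 1)`. -/
noncomputable def B : ℕ → ℤ[X]
  | 0 => 0
  | 1 => 1
  | n + 2 => if n % 2 = 0 then X * B (n / 2 + 1) else B (n / 2 + 1) + B (n / 2 + 2)
decreasing_by all_goals omega

lemma B_zero : B 0 = 0 := by rw [B]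

lemma B_one : B 1 = 1 := by rw [B]

lemma B_even (n : ℕ) (hn : 1 ≤ n) : B (2 * n) = X * B n := by
  obtain ⟨m, rfl⟩ : ∃ m, n = m + 1 := ⟨n - 1, by omega⟩
  have h : 2 * (m + 1) = 2 * m + 2 := by ring
  rw [h, B, if_pos (by omega)]
  congr 2
  omega

lemma B_odd (n : ℕ) (hn : 1 ≤ n) : B (2 * n + 1) = B n + B (n + 1) := by
  obtain ⟨m, rfl⟩ : ∃ m, n = m + 1 := ⟨n - 1, by omega⟩
  have h : 2 * (m + 1) + 1 = (2 * m + 1) + 2 := by ring
  rw [h, B, if_neg (by omega)]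
  congr 2 <;> omega

lemma B_two : B 2 = X := by
  have := B_even 1 le_rfl
  rw [mul_one, B_one, mul_one] at this
  exact this

/-- value at a complex number -/
noncomputable def b (t : ℂ) (n : ℕ) : ℂ := aeval t (B n)

lemma b_one (t : ℂ) : b t 1 = 1 := by simp [b, B_one]

lemma b_two (t : ℂ) : b t 2 = t := by simp [b, B_two]

lemma b_even (t : ℂ) (n : ℕ) (hn : 1 ≤ n) : b t (2 * n) = t * b t n := by
  simp [b, B_even n hn]

lemma b_odd (t : ℂ) (n : ℕ) (hn : 1 ≤ n) : b t (2 * n + 1) = b t n + b t (n + 1) := by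
  simp [b, B_odd n hn]

/-- no `B n`, `n ≥ 1`, vanishes at `t` -/
def NV (t : ℂ) : Prop := ∀ n : ℕ, 1 ≤ n → b t n ≠ 0

/-- The ratio `y / x` lies in the closed disc with centre `a` and radius `ρ`. -/
def D (a : ℂ) (ρ : ℝ) (x y : ℂ) : Prop := ‖y - a * x‖ ≤ ρ * ‖x‖

lemma inv_disc (a x y : ℂ) (ρ : ℝ) (hρ : 0 ≤ ρ) (hΔ : 0 < Complex.normSq a - ρ ^ 2)
    (h : D a ρ y x) :
    ‖((Complex.normSq a - ρ ^ 2 : ℝ) : ℂ) * y - (starRingEnd ℂ) a * x‖ ≤ ρ * ‖x‖ := by
  set Δ := Complex.normSq a - ρ ^ 2 with hΔd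
  unfold D at h
  have h1 : ‖x - a * y‖ ^ 2 ≤ ρ ^ 2 * ‖y‖ ^ 2 := by
    have := pow_le_pow_left₀ (norm_nonneg _) h 2
    rwa [mul_pow] at this
  have h2 : ‖(Δ : ℂ) * y - (starRingEnd ℂ) a * x‖ ^ 2 ≤ (ρ * ‖x‖) ^ 2 := by
    rw [mul_pow]
    rw [← Complex.normSq_eq_norm_sq, ← Complex.normSq_eq_norm_sq] at h1 ⊢
    have hN : Complex.normSq a = Δ + ρ ^ 2 := by rw [hΔd]; ring
    simp only [Complex.normSq_apply, Complex.sub_re, Complex.sub_im, Complex.mul_re,
      Complex.mul_im, Complex.conj_re, Complex.conj_im, Complex.ofReal_re, Complex.ofReal_im] at h1 hN ⊢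
    have h3 := mul_le_mul_of_nonneg_left h1 hΔ.le
    have h4 : a.re * a.re + a.im * a.im - Δ - ρ ^ 2 = 0 := by rw [hN]; ring
    have key : ((Δ * y.re - 0 * y.im - (a.re * x.re - -a.im * x.im)) *
        (Δ * y.re - 0 * y.im - (a.re * x.re - -a.im * x.im)) +
        (Δ * y.im + 0 * y.re - (a.re * x.im + -a.im * x.re)) *
        (Δ * y.im + 0 * y.re - (a.re * x.im + -a.im * x.re))) -
        ρ ^ 2 * (x.re * x.re + x.im * x.im) =
        (Δ * ((x.re - (a.re * y.re - a.im * y.im)) * (x.re - (a.re * y.re - a.im * y.im)) +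
          (x.im - (a.re * y.im + a.im * y.re)) * (x.im - (a.re * y.im + a.im * y.re))) -
        Δ * (ρ ^ 2 * (y.re * y.re + y.im * y.im))) +
        (a.re * a.re + a.im * a.im - Δ - ρ ^ 2) * ((x.re * x.re + x.im * x.im) -
          Δ * (y.re * y.re + y.im * y.im)) := by ring
    rw [h4] at key
    linarith
  exact (pow_le_pow_iff_left₀ (norm_nonneg _) (by positivity) two_ne_zero).1 h2

/-- the hypotheses of the criterion for `t`, with the centre `a` and the radius `ρ` -/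
structure Crit (t a : ℂ) (ρ : ℝ) : Prop where
  pos : 0 < ρ
  del : 0 < Complex.normSq a - ρ ^ 2
  c1 : ‖1 + a - a * t‖ + ρ ≤ ρ * ‖t‖
  c2 : ‖((Complex.normSq a - ρ ^ 2 : ℝ) : ℂ) * (1 - a * t) + (starRingEnd ℂ) a‖ + ρ ≤
    (Complex.normSq a - ρ ^ 2) * ρ * ‖t‖
  c3 : ‖t - a‖ ≤ ρ ∨ ‖1 - a * t‖ ≤ ρ * ‖t‖
  c4 : ρ < ‖1 + a‖

def Good (a : ℂ) (ρ : ℝ) (x y : ℂ) : Prop := x ≠ 0 ∧ y ≠ 0 ∧ (D a ρ x y ∨ D a ρ y x)

lemma step_D {t a : ℂ} {ρ : ℝ} (h : Crit t a ρ) {x y : ℂ} (hd : D a ρ x y ∨ D a ρ y x) :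
    D a ρ (t * x) (x + y) := by
  have hpos := h.pos
  rcases hd with hd | hd
  · unfold D at hd ⊢
    have e : x + y - a * (t * x) = (1 + a - a * t) * x + (y - a * x) := by ring
    rw [e, norm_mul]
    calc ‖(1 + a - a * t) * x + (y - a * x)‖ ≤ ‖1 + a - a * t‖ * ‖x‖ + ρ * ‖x‖ := by
          refine (norm_add_le _ _).trans ?_
          rw [norm_mul]
          linarith
      _ = (‖1 + a - a * t‖ + ρ) * ‖x‖ := by ring
      _ ≤ (ρ * ‖t‖) * ‖x‖ := mul_le_mul_of_nonneg_right h.c1 (norm_nonneg _)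
      _ = ρ * (‖t‖ * ‖x‖) := by ring
  · have hi := inv_disc a x y ρ hpos.le h.del hd
    have hc2 := h.c2
    have hΔ := h.del
    set Δ := Complex.normSq a - ρ ^ 2 with hΔd
    unfold D
    have e : (Δ : ℂ) * (x + y - a * (t * x)) =
        ((Δ : ℂ) * (1 - a * t) + (starRingEnd ℂ) a) * x + ((Δ : ℂ) * y - (starRingEnd ℂ) a * x) := by
      ring
    have h1 : Δ * ‖x + y - a * (t * x)‖ ≤ Δ * (ρ * ‖t * x‖) := by
      have h2 : Δ * ‖x + y - a * (t * x)‖ = ‖(Δ : ℂ) * (x + y - a * (t * x))‖ := by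
        rw [norm_mul, Complex.norm_real, Real.norm_of_nonneg hΔ.le]
      rw [h2, e, norm_mul t x]
      calc ‖((Δ : ℂ) * (1 - a * t) + (starRingEnd ℂ) a) * x + ((Δ : ℂ) * y - (starRingEnd ℂ) a * x)‖
          ≤ ‖(Δ : ℂ) * (1 - a * t) + (starRingEnd ℂ) a‖ * ‖x‖ + ρ * ‖x‖ := by
            refine (norm_add_le _ _).trans ?_
            rw [norm_mul]
            linarith
        _ = (‖(Δ : ℂ) * (1 - a * t) + (starRingEnd ℂ) a‖ + ρ) * ‖x‖ := by ring
        _ ≤ (Δ * ρ * ‖t‖) * ‖x‖ := mul_le_mul_of_nonneg_right hc2 (norm_nonneg _)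
        _ = Δ * (ρ * (‖t‖ * ‖x‖)) := by ring
    exact le_of_mul_le_mul_left h1 hΔ

lemma t_ne {t a : ℂ} {ρ : ℝ} (h : Crit t a ρ) : t ≠ 0 := by
  rintro rfl
  have h1 := h.c1
  have h2 := h.pos
  simp only [norm_zero, mul_zero] at h1
  have := norm_nonneg (1 + a - 0)
  linarith

lemma add_ne {t a : ℂ} {ρ : ℝ} (h : Crit t a ρ) {x y : ℂ} (hx : x ≠ 0)
    (hd : D a ρ x y ∨ D a ρ y x) : x + y ≠ 0 := by
  intro h0
  have hy : y = -x := by linear_combination h0
  have h4 := h.c4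
  have hxn : 0 < ‖x‖ := norm_pos_iff.2 hx
  have key : ‖1 + a‖ * ‖x‖ ≤ ρ * ‖x‖ := by
    rcases hd with hd | hd
    · unfold D at hd
      rw [hy, show -x - a * x = -((1 + a) * x) by ring, norm_neg, norm_mul] at hd
      exact hd
    · unfold D at hd
      rw [hy, show x - a * -x = (1 + a) * x by ring, norm_mul, norm_neg] at hd
      exact hd
  have := le_of_mul_le_mul_right key hxn
  linarith

lemma good_even {t a : ℂ} {ρ : ℝ} (h : Crit t a ρ) {x y : ℂ} (hg : Good a ρ x y) :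
    Good a ρ (t * x) (x + y) :=
  ⟨mul_ne_zero (t_ne h) hg.1, add_ne h hg.1 hg.2.2, Or.inl (step_D h hg.2.2)⟩

lemma good_odd {t a : ℂ} {ρ : ℝ} (h : Crit t a ρ) {x y : ℂ} (hg : Good a ρ x y) :
    Good a ρ (x + y) (t * y) := by
  refine ⟨add_ne h hg.1 hg.2.2, mul_ne_zero (t_ne h) hg.2.1, Or.inr ?_⟩
  rw [add_comm x y]
  exact step_D h hg.2.2.symm

lemma good_all {t a : ℂ} {ρ : ℝ} (h : Crit t a ρ) : ∀ n : ℕ, 1 ≤ n →
    Good a ρ (b t n) (b t (n + 1)) := by
  intro n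
  induction n using Nat.strong_induction_on with
  | _ n ih =>
    intro hn
    rcases Nat.lt_or_ge n 2 with h2 | h2
    · have : n = 1 := by omega
      subst this
      rw [b_one, b_two]
      refine ⟨one_ne_zero, t_ne h, ?_⟩
      rcases h.c3 with h3 | h3
      · left
        unfold D
        rwa [mul_one, norm_one, mul_one]
      · right
        unfold D
        exact h3
    · rcases Nat.even_or_odd' n with ⟨m, rfl | rfl⟩
      · have hm := ih m (by omega) (by omega)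
        rw [b_even t m (by omega), b_odd t m (by omega)]
        exact good_even h hm
      · have hm := ih m (by omega) (by omega)
        rw [b_odd t m (by omega), show 2 * m + 1 + 1 = 2 * (m + 1) by ring,
          b_even t (m + 1) (by omega)]
        exact good_odd h hm

/-- the invariant disc criterion -/
theorem nv_of_crit {t a : ℂ} {ρ : ℝ} (h : Crit t a ρ) : NV t :=
  fun n hn => (good_all h n hn).1

end Pool.Agent.X41.Stern
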