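import Pool.Agent.X41.Stern.Box

/-!
# The auxiliary function outside the zero-free region
-/

namespace Pool.Agent.X41.Stern

/-- `|t - 1|^2 |t^2 - 3 t + 3|^2 < |t - 2|^8` for `t = x + i y`, `u = y^2` -/
def Fpos (x u : ℝ) : Prop :=
  ((x - 1) ^ 2 + u) * (u ^ 2 + u * (2 * (x - 3 / 2) ^ 2 - 3 / 2) + ((x - 3 / 2) ^ 2 + 3 / 4) ^ 2) <
    ((x - 2) ^ 2 + u) ^ 4

/-- the inequalities for a strip -/
def StripCond (x0 x1 U c M : ℝ) : Prop :=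
  (1 ≤ x0 ∧ 0 ≤ U ∧ 0 ≤ c ∧ (x0 - 3 / 2) ^ 2 ≤ M ∧ (x1 - 3 / 2) ^ 2 ≤ M) ∧
  (c ≤ 0 ∨ (2 ≤ x0 ∧ c ≤ (x0 - 2) ^ 2) ∨ (x1 ≤ 2 ∧ c ≤ (x1 - 2) ^ 2)) ∧
  ((x1 - 1) ^ 2 + U) * (U ^ 2 + U * (2 * M - 3 / 2) + (M + 3 / 4) ^ 2) < (c + U) ^ 4 ∧
  ((x1 - 1) ^ 2 + U) * (2 * U + (2 * M - 3 / 2)) + (U ^ 2 + U * (2 * M - 3 / 2) + (M + 3 / 4) ^ 2) ≤
    4 * (c + U) ^ 3 ∧
  ((x1 - 1) ^ 2 + U) + (2 * U + (2 * M - 3 / 2)) ≤ 6 * (c + U) ^ 2 ∧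
  1 ≤ 4 * (c + U)

lemma fpos_strip {x0 x1 U c M x u : ℝ} (h : StripCond x0 x1 U c M) (hx0 : x0 ≤ x) (hx1 : x ≤ x1)
    (hu : U ≤ u) : Fpos x u := by
  obtain ⟨⟨h1, hU, hc0, hM0, hM1⟩, hc, e0, e1, e2, e3⟩ := h
  obtain ⟨s, hs, rfl⟩ : ∃ s : ℝ, 0 ≤ s ∧ u = U + s := ⟨u - U, by linarith, by ring⟩
  have hcx : c ≤ (x - 2) ^ 2 := by
    rcases hc with hc | ⟨h2, hc⟩ | ⟨h2, hc⟩
    · nlinarith [sq_nonneg (x - 2)]
    · nlinarith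
    · nlinarith
  have hMx : (x - 3 / 2) ^ 2 ≤ M := by
    rcases le_total x (3 / 2) with hx | hx
    · nlinarith
    · nlinarith
  have hbx : (x - 1) ^ 2 ≤ (x1 - 1) ^ 2 := by nlinarith
  unfold Fpos
  set Z := (x - 3 / 2) ^ 2 with hZ
  have hZ0 : 0 ≤ Z := sq_nonneg _
  set C := c + U with hC
  set Bv := (x1 - 1) ^ 2 + U with hBv
  set q1 := 2 * U + (2 * M - 3 / 2) with hq1
  set q0 := U ^ 2 + U * (2 * M - 3 / 2) + (M + 3 / 4) ^ 2 with hq0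
  have hus : 0 ≤ U + s := by linarith
  have hq : (U + s) ^ 2 + (U + s) * (2 * Z - 3 / 2) + (Z + 3 / 4) ^ 2 ≤ s ^ 2 + q1 * s + q0 := by
    have : s ^ 2 + q1 * s + q0 - ((U + s) ^ 2 + (U + s) * (2 * Z - 3 / 2) + (Z + 3 / 4) ^ 2) =
        (M - Z) * (2 * (U + s) + (M + Z + 3 / 2)) := by
      rw [hq1, hq0]
      ring
    have h5 : 0 ≤ (M - Z) * (2 * (U + s) + (M + Z + 3 / 2)) :=
      mul_nonneg (by linarith) (by linarith)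
    linarith
  have hqn : 0 ≤ (U + s) ^ 2 + (U + s) * (2 * Z - 3 / 2) + (Z + 3 / 4) ^ 2 := by
    have : (U + s) ^ 2 + (U + s) * (2 * Z - 3 / 2) + (Z + 3 / 4) ^ 2 =
        (Z - (U + s) + 3 / 4) ^ 2 + 4 * (Z * (U + s)) := by ring
    rw [this]
    have := mul_nonneg hZ0 hus
    positivity
  have hC0 : 0 ≤ C + s := by
    rw [hC]
    linarith
  have hB0 : 0 ≤ (x - 1) ^ 2 + (U + s) := by positivity
  calc ((x - 1) ^ 2 + (U + s)) * ((U + s) ^ 2 + (U + s) * (2 * Z - 3 / 2) + (Z + 3 / 4) ^ 2)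
      ≤ (Bv + s) * (s ^ 2 + q1 * s + q0) := by
        apply mul_le_mul _ hq hqn
        · rw [hBv]
          have := sq_nonneg (x1 - 1)
          linarith
        · rw [hBv]
          linarith
    _ < (C + s) ^ 4 := by
        have e : (C + s) ^ 4 - (Bv + s) * (s ^ 2 + q1 * s + q0) = (C ^ 4 - Bv * q0) +
            s * (4 * C ^ 3 - (Bv * q1 + q0)) + s ^ 2 * (6 * C ^ 2 - (Bv + q1)) +
            s ^ 3 * (4 * C - 1) + s ^ 4 := by ring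
        have f1 : 0 ≤ s * (4 * C ^ 3 - (Bv * q1 + q0)) := mul_nonneg hs (by linarith)
        have f2 : 0 ≤ s ^ 2 * (6 * C ^ 2 - (Bv + q1)) := mul_nonneg (by positivity) (by linarith)
        have f3 : 0 ≤ s ^ 3 * (4 * C - 1) := mul_nonneg (by positivity) (by linarith)
        have f4 : 0 ≤ s ^ 4 := by positivity
        linarith
    _ ≤ ((x - 2) ^ 2 + (U + s)) ^ 4 := by
        apply pow_le_pow_left₀ hC0
        rw [hC]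
        linarith

end Pool.Agent.X41.Stern
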