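import Pool.Agent.X41.Stern.Outer

/-! generated: the strips -/

namespace Pool.Agent.X41.Stern

lemma strip8 {x y : ℝ} (hx0 : (43 / 20) ≤ x) (hx1 : x ≤ (113 / 50)) (hy : 0 ≤ y) (hn : ¬ Fpos x (y ^ 2)) :
    NV (⟨x, y⟩ : ℂ) := by
  have htop : y ≤ (29 / 20) := by
    by_contra hlt
    push Not at hlt
    have hsc : StripCond (43 / 20) (113 / 50) (841 / 400) (9 / 400) (361 / 625) := by
      unfold StripCond
      norm_num
    exact hn (fpos_strip hsc hx0 hx1 (by nlinarith))
  have b0 : BoxCond (43 / 20) (113 / 50) 0 (2 / 5) (37 / 20) (-11 / 100) (41 / 25) (21499 / 10000) := by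
    unfold BoxCond Cor nf
    norm_num
  have b1 : BoxCond (43 / 20) (113 / 50) (2 / 5) (4 / 5) (87 / 50) (-33 / 100) (159 / 100) (5467 / 2500) := by
    unfold BoxCond Cor nf
    norm_num
  have b2 : BoxCond (43 / 20) (113 / 50) (4 / 5) (11 / 10) (29 / 20) (-41 / 100) (131 / 100) (1147 / 500) := by
    unfold BoxCond Cor nf
    norm_num
  have b3 : BoxCond (43 / 20) (113 / 50) (11 / 10) (13 / 10) (129 / 100) (-12 / 25) (117 / 100) (483 / 200) := by
    unfold BoxCond Cor nf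
    norm_num
  have b4 : BoxCond (43 / 20) (113 / 50) (13 / 10) (71 / 50) (131 / 100) (-11 / 20) (123 / 100) (6281 / 2500) := by
    unfold BoxCond Cor nf
    norm_num
  have b5 : BoxCond (43 / 20) (113 / 50) (71 / 50) (29 / 20) (29 / 25) (-47 / 100) (26 / 25) (12883 / 5000) := by
    unfold BoxCond Cor nf
    norm_num
  rcases le_total y (2 / 5) with h0 | h0
  · exact nv_box b0 hx0 hx1 hy h0
  rcases le_total y (4 / 5) with h1 | h1
  · exact nv_box b1 hx0 hx1 h0 h1
  rcases le_total y (11 / 10) with h2 | h2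
  · exact nv_box b2 hx0 hx1 h1 h2
  rcases le_total y (13 / 10) with h3 | h3
  · exact nv_box b3 hx0 hx1 h2 h3
  rcases le_total y (71 / 50) with h4 | h4
  · exact nv_box b4 hx0 hx1 h3 h4
  exact nv_box b5 hx0 hx1 h4 htop

lemma strip9 {x y : ℝ} (hx0 : (113 / 50) ≤ x) (hx1 : x ≤ (237 / 100)) (hy : 0 ≤ y) (hn : ¬ Fpos x (y ^ 2)) :
    NV (⟨x, y⟩ : ℂ) := by
  have htop : y ≤ (153 / 100) := by
    by_contra hlt
    push Not at hlt
    have hsc : StripCond (113 / 50) (237 / 100) (23409 / 10000) (169 / 2500) (7569 / 10000) := by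
      unfold StripCond
      norm_num
    exact hn (fpos_strip hsc hx0 hx1 (by nlinarith))
  have b0 : BoxCond (113 / 50) (237 / 100) 0 (2 / 5) (187 / 100) (-3 / 25) (83 / 50) (22599 / 10000) := by
    unfold BoxCond Cor nf
    norm_num
  have b1 : BoxCond (113 / 50) (237 / 100) (2 / 5) (4 / 5) (37 / 20) (-8 / 25) (43 / 25) (22951 / 10000) := by
    unfold BoxCond Cor nf
    norm_num
  have b2 : BoxCond (113 / 50) (237 / 100) (4 / 5) (23 / 20) (37 / 25) (-11 / 25) (34 / 25) (11987 / 5000) := by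
    unfold BoxCond Cor nf
    norm_num
  have b3 : BoxCond (113 / 50) (237 / 100) (23 / 20) (27 / 20) (69 / 50) (-51 / 100) (129 / 100) (25357 / 10000) := by
    unfold BoxCond Cor nf
    norm_num
  have b4 : BoxCond (113 / 50) (237 / 100) (27 / 20) (149 / 100) (63 / 50) (-1 / 2) (117 / 100) (1053 / 400) := by
    unfold BoxCond Cor nf
    norm_num
  have b5 : BoxCond (113 / 50) (237 / 100) (149 / 100) (153 / 100) (32 / 25) (-27 / 50) (121 / 100) (27069 / 10000) := by
    unfold BoxCond Cor nf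
    norm_num
  rcases le_total y (2 / 5) with h0 | h0
  · exact nv_box b0 hx0 hx1 hy h0
  rcases le_total y (4 / 5) with h1 | h1
  · exact nv_box b1 hx0 hx1 h0 h1
  rcases le_total y (23 / 20) with h2 | h2
  · exact nv_box b2 hx0 hx1 h1 h2
  rcases le_total y (27 / 20) with h3 | h3
  · exact nv_box b3 hx0 hx1 h2 h3
  rcases le_total y (149 / 100) with h4 | h4
  · exact nv_box b4 hx0 hx1 h3 h4
  exact nv_box b5 hx0 hx1 h4 htop

lemma strip10 {x y : ℝ} (hx0 : (237 / 100) ≤ x) (hx1 : x ≤ (62 / 25)) (hy : 0 ≤ y) (hn : ¬ Fpos x (y ^ 2)) :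
    NV (⟨x, y⟩ : ℂ) := by
  have htop : y ≤ (79 / 50) := by
    by_contra hlt
    push Not at hlt
    have hsc : StripCond (237 / 100) (62 / 25) (6241 / 2500) (1369 / 10000) (2401 / 2500) := by
      unfold StripCond
      norm_num
    exact hn (fpos_strip hsc hx0 hx1 (by nlinarith))
  have b0 : BoxCond (237 / 100) (62 / 25) 0 (2 / 5) (91 / 50) (-11 / 100) (161 / 100) (23699 / 10000) := by
    unfold BoxCond Cor nf
    norm_num
  have b1 : BoxCond (237 / 100) (62 / 25) (2 / 5) (4 / 5) (19 / 10) (-27 / 100) (89 / 50) (4807 / 2000) := by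
    unfold BoxCond Cor nf
    norm_num
  have b2 : BoxCond (237 / 100) (62 / 25) (4 / 5) (6 / 5) (28 / 25) (-31 / 100) (91 / 100) (25013 / 10000) := by
    unfold BoxCond Cor nf
    norm_num
  have b3 : BoxCond (237 / 100) (62 / 25) (6 / 5) (7 / 5) (117 / 100) (-21 / 50) (103 / 100) (6641 / 2500) := by
    unfold BoxCond Cor nf
    norm_num
  have b4 : BoxCond (237 / 100) (62 / 25) (7 / 5) (157 / 100) (119 / 100) (-47 / 100) (109 / 100) (13763 / 5000) := by
    unfold BoxCond Cor nf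
    norm_num
  have b5 : BoxCond (237 / 100) (62 / 25) (157 / 100) (79 / 50) (113 / 100) (-23 / 50) (51 / 50) (7107 / 2500) := by
    unfold BoxCond Cor nf
    norm_num
  rcases le_total y (2 / 5) with h0 | h0
  · exact nv_box b0 hx0 hx1 hy h0
  rcases le_total y (4 / 5) with h1 | h1
  · exact nv_box b1 hx0 hx1 h0 h1
  rcases le_total y (6 / 5) with h2 | h2
  · exact nv_box b2 hx0 hx1 h1 h2
  rcases le_total y (7 / 5) with h3 | h3
  · exact nv_box b3 hx0 hx1 h2 h3
  rcases le_total y (157 / 100) with h4 | h4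
  · exact nv_box b4 hx0 hx1 h3 h4
  exact nv_box b5 hx0 hx1 h4 htop

lemma strip11 {x y : ℝ} (hx0 : (62 / 25) ≤ x) (hx1 : x ≤ (259 / 100)) (hy : 0 ≤ y) (hn : ¬ Fpos x (y ^ 2)) :
    NV (⟨x, y⟩ : ℂ) := by
  have htop : y ≤ (163 / 100) := by
    by_contra hlt
    push Not at hlt
    have hsc : StripCond (62 / 25) (259 / 100) (26569 / 10000) (144 / 625) (11881 / 10000) := by
      unfold StripCond
      norm_num
    exact hn (fpos_strip hsc hx0 hx1 (by nlinarith))
  have b0 : BoxCond (62 / 25) (259 / 100) 0 (2 / 5) (89 / 50) (-11 / 100) (39 / 25) (24799 / 10000) := by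
    unfold BoxCond Cor nf
    norm_num
  have b1 : BoxCond (62 / 25) (259 / 100) (2 / 5) (4 / 5) (177 / 100) (-6 / 25) (41 / 25) (314 / 125) := by
    unfold BoxCond Cor nf
    norm_num
  have b2 : BoxCond (62 / 25) (259 / 100) (4 / 5) (6 / 5) (163 / 100) (-9 / 25) (153 / 100) (13029 / 5000) := by
    unfold BoxCond Cor nf
    norm_num
  have b3 : BoxCond (62 / 25) (259 / 100) (6 / 5) (29 / 20) (147 / 100) (-12 / 25) (7 / 5) (551 / 200) := by
    unfold BoxCond Cor nf
    norm_num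
  have b4 : BoxCond (62 / 25) (259 / 100) (29 / 20) (163 / 100) (32 / 25) (-51 / 100) (121 / 100) (28727 / 10000) := by
    unfold BoxCond Cor nf
    norm_num
  rcases le_total y (2 / 5) with h0 | h0
  · exact nv_box b0 hx0 hx1 hy h0
  rcases le_total y (4 / 5) with h1 | h1
  · exact nv_box b1 hx0 hx1 h0 h1
  rcases le_total y (6 / 5) with h2 | h2
  · exact nv_box b2 hx0 hx1 h1 h2
  rcases le_total y (29 / 20) with h3 | h3
  · exact nv_box b3 hx0 hx1 h2 h3
  exact nv_box b4 hx0 hx1 h3 htop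

lemma strip12 {x y : ℝ} (hx0 : (259 / 100) ≤ x) (hx1 : x ≤ (27 / 10)) (hy : 0 ≤ y) (hn : ¬ Fpos x (y ^ 2)) :
    NV (⟨x, y⟩ : ℂ) := by
  have htop : y ≤ (83 / 50) := by
    by_contra hlt
    push Not at hlt
    have hsc : StripCond (259 / 100) (27 / 10) (6889 / 2500) (3481 / 10000) (36 / 25) := by
      unfold StripCond
      norm_num
    exact hn (fpos_strip hsc hx0 hx1 (by nlinarith))
  have b0 : BoxCond (259 / 100) (27 / 10) 0 (2 / 5) (71 / 50) (-3 / 50) (61 / 50) (25899 / 10000) := by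
    unfold BoxCond Cor nf
    norm_num
  have b1 : BoxCond (259 / 100) (27 / 10) (2 / 5) (4 / 5) (171 / 100) (-23 / 100) (157 / 100) (26207 / 10000) := by
    unfold BoxCond Cor nf
    norm_num
  have b2 : BoxCond (259 / 100) (27 / 10) (4 / 5) (6 / 5) (8 / 5) (-37 / 100) (3 / 2) (27107 / 10000) := by
    unfold BoxCond Cor nf
    norm_num
  have b3 : BoxCond (259 / 100) (27 / 10) (6 / 5) (3 / 2) (13 / 10) (-21 / 50) (6 / 5) (1784 / 625) := by
    unfold BoxCond Cor nf
    norm_num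
  have b4 : BoxCond (259 / 100) (27 / 10) (3 / 2) (83 / 50) (29 / 25) (-9 / 20) (53 / 50) (2993 / 1000) := by
    unfold BoxCond Cor nf
    norm_num
  rcases le_total y (2 / 5) with h0 | h0
  · exact nv_box b0 hx0 hx1 hy h0
  rcases le_total y (4 / 5) with h1 | h1
  · exact nv_box b1 hx0 hx1 h0 h1
  rcases le_total y (6 / 5) with h2 | h2
  · exact nv_box b2 hx0 hx1 h1 h2
  rcases le_total y (3 / 2) with h3 | h3
  · exact nv_box b3 hx0 hx1 h2 h3
  exact nv_box b4 hx0 hx1 h3 htop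

lemma strip13 {x y : ℝ} (hx0 : (27 / 10) ≤ x) (hx1 : x ≤ (281 / 100)) (hy : 0 ≤ y) (hn : ¬ Fpos x (y ^ 2)) :
    NV (⟨x, y⟩ : ℂ) := by
  have htop : y ≤ (42 / 25) := by
    by_contra hlt
    push Not at hlt
    have hsc : StripCond (27 / 10) (281 / 100) (1764 / 625) (49 / 100) (17161 / 10000) := by
      unfold StripCond
      norm_num
    exact hn (fpos_strip hsc hx0 hx1 (by nlinarith))
  have b0 : BoxCond (27 / 10) (281 / 100) 0 (2 / 5) (34 / 25) (-3 / 50) (29 / 25) (26999 / 10000) := by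
    unfold BoxCond Cor nf
    norm_num
  have b1 : BoxCond (27 / 10) (281 / 100) (2 / 5) (4 / 5) (7 / 5) (-17 / 100) (123 / 100) (13647 / 5000) := by
    unfold BoxCond Cor nf
    norm_num
  have b2 : BoxCond (27 / 10) (281 / 100) (4 / 5) (6 / 5) (63 / 50) (-7 / 25) (11 / 10) (352 / 125) := by
    unfold BoxCond Cor nf
    norm_num
  have b3 : BoxCond (27 / 10) (281 / 100) (6 / 5) (31 / 20) (23 / 20) (-9 / 25) (51 / 50) (14773 / 5000) := by
    unfold BoxCond Cor nf
    norm_num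
  have b4 : BoxCond (27 / 10) (281 / 100) (31 / 20) (42 / 25) (21 / 20) (-19 / 50) (23 / 25) (7783 / 2500) := by
    unfold BoxCond Cor nf
    norm_num
  rcases le_total y (2 / 5) with h0 | h0
  · exact nv_box b0 hx0 hx1 hy h0
  rcases le_total y (4 / 5) with h1 | h1
  · exact nv_box b1 hx0 hx1 h0 h1
  rcases le_total y (6 / 5) with h2 | h2
  · exact nv_box b2 hx0 hx1 h1 h2
  rcases le_total y (31 / 20) with h3 | h3
  · exact nv_box b3 hx0 hx1 h2 h3
  exact nv_box b4 hx0 hx1 h3 htop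

lemma strip14 {x y : ℝ} (hx0 : (281 / 100) ≤ x) (hx1 : x ≤ (73 / 25)) (hy : 0 ≤ y) (hn : ¬ Fpos x (y ^ 2)) :
    NV (⟨x, y⟩ : ℂ) := by
  have htop : y ≤ (169 / 100) := by
    by_contra hlt
    push Not at hlt
    have hsc : StripCond (281 / 100) (73 / 25) (28561 / 10000) (6561 / 10000) (5041 / 2500) := by
      unfold StripCond
      norm_num
    exact hn (fpos_strip hsc hx0 hx1 (by nlinarith))
  have b0 : BoxCond (281 / 100) (73 / 25) 0 (2 / 5) (71 / 50) (-3 / 50) (31 / 25) (28099 / 10000) := by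
    unfold BoxCond Cor nf
    norm_num
  have b1 : BoxCond (281 / 100) (73 / 25) (2 / 5) (4 / 5) (73 / 50) (-17 / 100) (13 / 10) (28383 / 10000) := by
    unfold BoxCond Cor nf
    norm_num
  have b2 : BoxCond (281 / 100) (73 / 25) (4 / 5) (6 / 5) (151 / 100) (-31 / 100) (7 / 5) (1826 / 625) := by
    unfold BoxCond Cor nf
    norm_num
  have b3 : BoxCond (281 / 100) (73 / 25) (6 / 5) (31 / 20) (119 / 100) (-9 / 25) (107 / 100) (6111 / 2000) := by
    unfold BoxCond Cor nf
    norm_num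
  have b4 : BoxCond (281 / 100) (73 / 25) (31 / 20) (169 / 100) (111 / 100) (-9 / 25) (99 / 100) (32091 / 10000) := by
    unfold BoxCond Cor nf
    norm_num
  rcases le_total y (2 / 5) with h0 | h0
  · exact nv_box b0 hx0 hx1 hy h0
  rcases le_total y (4 / 5) with h1 | h1
  · exact nv_box b1 hx0 hx1 h0 h1
  rcases le_total y (6 / 5) with h2 | h2
  · exact nv_box b2 hx0 hx1 h1 h2
  rcases le_total y (31 / 20) with h3 | h3
  · exact nv_box b3 hx0 hx1 h2 h3
  exact nv_box b4 hx0 hx1 h3 htop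

lemma strip15 {x y : ℝ} (hx0 : (73 / 25) ≤ x) (hx1 : x ≤ (303 / 100)) (hy : 0 ≤ y) (hn : ¬ Fpos x (y ^ 2)) :
    NV (⟨x, y⟩ : ℂ) := by
  have htop : y ≤ (169 / 100) := by
    by_contra hlt
    push Not at hlt
    have hsc : StripCond (73 / 25) (303 / 100) (28561 / 10000) (529 / 625) (23409 / 10000) := by
      unfold StripCond
      norm_num
    exact hn (fpos_strip hsc hx0 hx1 (by nlinarith))
  have b0 : BoxCond (73 / 25) (303 / 100) 0 (2 / 5) (71 / 50) (-3 / 50) (31 / 25) (29199 / 10000) := by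
    unfold BoxCond Cor nf
    norm_num
  have b1 : BoxCond (73 / 25) (303 / 100) (2 / 5) (4 / 5) (29 / 20) (-17 / 100) (13 / 10) (1842 / 625) := by
    unfold BoxCond Cor nf
    norm_num
  have b2 : BoxCond (73 / 25) (303 / 100) (4 / 5) (6 / 5) (3 / 2) (-29 / 100) (139 / 100) (7569 / 2500) := by
    unfold BoxCond Cor nf
    norm_num
  have b3 : BoxCond (73 / 25) (303 / 100) (6 / 5) (8 / 5) (63 / 50) (-37 / 100) (29 / 25) (31569 / 10000) := by
    unfold BoxCond Cor nf
    norm_num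
  have b4 : BoxCond (73 / 25) (303 / 100) (8 / 5) (169 / 100) (32 / 25) (-21 / 50) (6 / 5) (2081 / 625) := by
    unfold BoxCond Cor nf
    norm_num
  rcases le_total y (2 / 5) with h0 | h0
  · exact nv_box b0 hx0 hx1 hy h0
  rcases le_total y (4 / 5) with h1 | h1
  · exact nv_box b1 hx0 hx1 h0 h1
  rcases le_total y (6 / 5) with h2 | h2
  · exact nv_box b2 hx0 hx1 h1 h2
  rcases le_total y (8 / 5) with h3 | h3
  · exact nv_box b3 hx0 hx1 h2 h3
  exact nv_box b4 hx0 hx1 h3 htop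

end Pool.Agent.X41.Stern
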