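import Pool.Agent.X41.Stern.Outer

/-! generated: the strips -/

namespace Pool.Agent.X41.Stern

lemma strip16 {x y : ℝ} (hx0 : (303 / 100) ≤ x) (hx1 : x ≤ (157 / 50)) (hy : 0 ≤ y) (hn : ¬ Fpos x (y ^ 2)) :
    NV (⟨x, y⟩ : ℂ) := by
  have htop : y ≤ (169 / 100) := by
    by_contra hlt
    push Not at hlt
    have hsc : StripCond (303 / 100) (157 / 50) (28561 / 10000) (10609 / 10000) (1681 / 625) := by
      unfold StripCond
      norm_num
    exact hn (fpos_strip hsc hx0 hx1 (by nlinarith))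
  have b0 : BoxCond (303 / 100) (157 / 50) 0 (2 / 5) (77 / 50) (-3 / 50) (69 / 50) (30299 / 10000) := by
    unfold BoxCond Cor nf
    norm_num
  have b1 : BoxCond (303 / 100) (157 / 50) (2 / 5) (4 / 5) (129 / 100) (-7 / 50) (28 / 25) (15281 / 5000) := by
    unfold BoxCond Cor nf
    norm_num
  have b2 : BoxCond (303 / 100) (157 / 50) (4 / 5) (6 / 5) (3 / 2) (-13 / 50) (139 / 100) (15669 / 5000) := by
    unfold BoxCond Cor nf
    norm_num
  have b3 : BoxCond (303 / 100) (157 / 50) (6 / 5) (8 / 5) (121 / 100) (-7 / 20) (11 / 10) (32589 / 10000) := by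
    unfold BoxCond Cor nf
    norm_num
  have b4 : BoxCond (303 / 100) (157 / 50) (8 / 5) (169 / 100) (13 / 10) (-39 / 100) (61 / 50) (4283 / 1250) := by
    unfold BoxCond Cor nf
    norm_num
  rcases le_total y (2 / 5) with h0 | h0
  · exact nv_box b0 hx0 hx1 hy h0
  rcases le_total y (4 / 5) with h1 | h1
  · exact nv_box b1 hx0 hx1 h0 h1
  rcases le_total y (6 / 5) with h2 | h2
  · exact nv_box b2 hx0 hx1 h1 h2
  rcases le_total y (8 / 5) with h3 | h3
  · exact nv_box b3 hx0 hx1 h2 h3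
  exact nv_box b4 hx0 hx1 h3 htop

lemma strip17 {x y : ℝ} (hx0 : (157 / 50) ≤ x) (hx1 : x ≤ (13 / 4)) (hy : 0 ≤ y) (hn : ¬ Fpos x (y ^ 2)) :
    NV (⟨x, y⟩ : ℂ) := by
  have htop : y ≤ (167 / 100) := by
    by_contra hlt
    push Not at hlt
    have hsc : StripCond (157 / 50) (13 / 4) (27889 / 10000) (3249 / 2500) (49 / 16) := by
      unfold StripCond
      norm_num
    exact hn (fpos_strip hsc hx0 hx1 (by nlinarith))
  have b0 : BoxCond (157 / 50) (13 / 4) 0 (2 / 5) (41 / 25) (-7 / 100) (149 / 100) (31399 / 10000) := by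
    unfold BoxCond Cor nf
    norm_num
  have b1 : BoxCond (157 / 50) (13 / 4) (2 / 5) (4 / 5) (139 / 100) (-3 / 20) (31 / 25) (31653 / 10000) := by
    unfold BoxCond Cor nf
    norm_num
  have b2 : BoxCond (157 / 50) (13 / 4) (4 / 5) (6 / 5) (127 / 100) (-11 / 50) (113 / 100) (32403 / 10000) := by
    unfold BoxCond Cor nf
    norm_num
  have b3 : BoxCond (157 / 50) (13 / 4) (6 / 5) (8 / 5) (127 / 100) (-17 / 50) (117 / 100) (16807 / 5000) := by
    unfold BoxCond Cor nf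
    norm_num
  have b4 : BoxCond (157 / 50) (13 / 4) (8 / 5) (167 / 100) (139 / 100) (-39 / 100) (33 / 25) (35241 / 10000) := by
    unfold BoxCond Cor nf
    norm_num
  rcases le_total y (2 / 5) with h0 | h0
  · exact nv_box b0 hx0 hx1 hy h0
  rcases le_total y (4 / 5) with h1 | h1
  · exact nv_box b1 hx0 hx1 h0 h1
  rcases le_total y (6 / 5) with h2 | h2
  · exact nv_box b2 hx0 hx1 h1 h2
  rcases le_total y (8 / 5) with h3 | h3
  · exact nv_box b3 hx0 hx1 h2 h3
  exact nv_box b4 hx0 hx1 h3 htop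

lemma strip18 {x y : ℝ} (hx0 : (13 / 4) ≤ x) (hx1 : x ≤ (84 / 25)) (hy : 0 ≤ y) (hn : ¬ Fpos x (y ^ 2)) :
    NV (⟨x, y⟩ : ℂ) := by
  have htop : y ≤ (41 / 25) := by
    by_contra hlt
    push Not at hlt
    have hsc : StripCond (13 / 4) (84 / 25) (1681 / 625) (25 / 16) (8649 / 2500) := by
      unfold StripCond
      norm_num
    exact hn (fpos_strip hsc hx0 hx1 (by nlinarith))
  have b0 : BoxCond (13 / 4) (84 / 25) 0 (2 / 5) (149 / 100) (-3 / 50) (133 / 100) (32499 / 10000) := by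
    unfold BoxCond Cor nf
    norm_num
  have b1 : BoxCond (13 / 4) (84 / 25) (2 / 5) (4 / 5) (151 / 100) (-4 / 25) (137 / 100) (6549 / 2000) := by
    unfold BoxCond Cor nf
    norm_num
  have b2 : BoxCond (13 / 4) (84 / 25) (4 / 5) (6 / 5) (42 / 25) (-27 / 100) (159 / 100) (3347 / 1000) := by
    unfold BoxCond Cor nf
    norm_num
  have b3 : BoxCond (13 / 4) (84 / 25) (6 / 5) (8 / 5) (42 / 25) (-2 / 5) (163 / 100) (8661 / 2500) := by
    unfold BoxCond Cor nf
    norm_num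
  have b4 : BoxCond (13 / 4) (84 / 25) (8 / 5) (41 / 25) (7 / 4) (-43 / 100) (171 / 100) (2264 / 625) := by
    unfold BoxCond Cor nf
    norm_num
  rcases le_total y (2 / 5) with h0 | h0
  · exact nv_box b0 hx0 hx1 hy h0
  rcases le_total y (4 / 5) with h1 | h1
  · exact nv_box b1 hx0 hx1 h0 h1
  rcases le_total y (6 / 5) with h2 | h2
  · exact nv_box b2 hx0 hx1 h1 h2
  rcases le_total y (8 / 5) with h3 | h3
  · exact nv_box b3 hx0 hx1 h2 h3
  exact nv_box b4 hx0 hx1 h3 htop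

lemma strip19 {x y : ℝ} (hx0 : (84 / 25) ≤ x) (hx1 : x ≤ (347 / 100)) (hy : 0 ≤ y) (hn : ¬ Fpos x (y ^ 2)) :
    NV (⟨x, y⟩ : ℂ) := by
  have htop : y ≤ (161 / 100) := by
    by_contra hlt
    push Not at hlt
    have hsc : StripCond (84 / 25) (347 / 100) (25921 / 10000) (1156 / 625) (38809 / 10000) := by
      unfold StripCond
      norm_num
    exact hn (fpos_strip hsc hx0 hx1 (by nlinarith))
  have b0 : BoxCond (84 / 25) (347 / 100) 0 (2 / 5) (153 / 100) (-3 / 50) (69 / 50) (33599 / 10000) := by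
    unfold BoxCond Cor nf
    norm_num
  have b1 : BoxCond (84 / 25) (347 / 100) (2 / 5) (4 / 5) (71 / 50) (-3 / 20) (32 / 25) (33837 / 10000) := by
    unfold BoxCond Cor nf
    norm_num
  have b2 : BoxCond (84 / 25) (347 / 100) (4 / 5) (6 / 5) (69 / 50) (-23 / 100) (63 / 50) (34539 / 10000) := by
    unfold BoxCond Cor nf
    norm_num
  have b3 : BoxCond (84 / 25) (347 / 100) (6 / 5) (8 / 5) (32 / 25) (-3 / 10) (59 / 50) (17839 / 5000) := by
    unfold BoxCond Cor nf
    norm_num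
  have b4 : BoxCond (84 / 25) (347 / 100) (8 / 5) (161 / 100) (61 / 50) (-29 / 100) (111 / 100) (7443 / 2000) := by
    unfold BoxCond Cor nf
    norm_num
  rcases le_total y (2 / 5) with h0 | h0
  · exact nv_box b0 hx0 hx1 hy h0
  rcases le_total y (4 / 5) with h1 | h1
  · exact nv_box b1 hx0 hx1 h0 h1
  rcases le_total y (6 / 5) with h2 | h2
  · exact nv_box b2 hx0 hx1 h1 h2
  rcases le_total y (8 / 5) with h3 | h3
  · exact nv_box b3 hx0 hx1 h2 h3
  exact nv_box b4 hx0 hx1 h3 htop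

lemma strip20 {x y : ℝ} (hx0 : (347 / 100) ≤ x) (hx1 : x ≤ (179 / 50)) (hy : 0 ≤ y) (hn : ¬ Fpos x (y ^ 2)) :
    NV (⟨x, y⟩ : ℂ) := by
  have htop : y ≤ (157 / 100) := by
    by_contra hlt
    push Not at hlt
    have hsc : StripCond (347 / 100) (179 / 50) (24649 / 10000) (21609 / 10000) (2704 / 625) := by
      unfold StripCond
      norm_num
    exact hn (fpos_strip hsc hx0 hx1 (by nlinarith))
  have b0 : BoxCond (347 / 100) (179 / 50) 0 (2 / 5) (177 / 100) (-7 / 100) (163 / 100) (34699 / 10000) := by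
    unfold BoxCond Cor nf
    norm_num
  have b1 : BoxCond (347 / 100) (179 / 50) (2 / 5) (4 / 5) (3 / 2) (-4 / 25) (137 / 100) (34929 / 10000) := by
    unfold BoxCond Cor nf
    norm_num
  have b2 : BoxCond (347 / 100) (179 / 50) (4 / 5) (6 / 5) (83 / 50) (-27 / 100) (157 / 100) (3561 / 1000) := by
    unfold BoxCond Cor nf
    norm_num
  have b3 : BoxCond (347 / 100) (179 / 50) (6 / 5) (157 / 100) (31 / 20) (-17 / 50) (37 / 25) (9179 / 2500) := by
    unfold BoxCond Cor nf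
    norm_num
  rcases le_total y (2 / 5) with h0 | h0
  · exact nv_box b0 hx0 hx1 hy h0
  rcases le_total y (4 / 5) with h1 | h1
  · exact nv_box b1 hx0 hx1 h0 h1
  rcases le_total y (6 / 5) with h2 | h2
  · exact nv_box b2 hx0 hx1 h1 h2
  exact nv_box b3 hx0 hx1 h2 htop

lemma strip21 {x y : ℝ} (hx0 : (179 / 50) ≤ x) (hx1 : x ≤ (369 / 100)) (hy : 0 ≤ y) (hn : ¬ Fpos x (y ^ 2)) :
    NV (⟨x, y⟩ : ℂ) := by
  have htop : y ≤ (151 / 100) := by
    by_contra hlt
    push Not at hlt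
    have hsc : StripCond (179 / 50) (369 / 100) (22801 / 10000) (6241 / 2500) (47961 / 10000) := by
      unfold StripCond
      norm_num
    exact hn (fpos_strip hsc hx0 hx1 (by nlinarith))
  have b0 : BoxCond (179 / 50) (369 / 100) 0 (2 / 5) (209 / 100) (-1 / 10) (49 / 25) (35799 / 10000) := by
    unfold BoxCond Cor nf
    norm_num
  have b1 : BoxCond (179 / 50) (369 / 100) (2 / 5) (4 / 5) (181 / 100) (-21 / 100) (17 / 10) (18011 / 5000) := by
    unfold BoxCond Cor nf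
    norm_num
  have b2 : BoxCond (179 / 50) (369 / 100) (4 / 5) (6 / 5) (189 / 100) (-31 / 100) (91 / 50) (18341 / 5000) := by
    unfold BoxCond Cor nf
    norm_num
  have b3 : BoxCond (179 / 50) (369 / 100) (6 / 5) (151 / 100) (99 / 50) (-19 / 50) (97 / 50) (37757 / 10000) := by
    unfold BoxCond Cor nf
    norm_num
  rcases le_total y (2 / 5) with h0 | h0
  · exact nv_box b0 hx0 hx1 hy h0
  rcases le_total y (4 / 5) with h1 | h1
  · exact nv_box b1 hx0 hx1 h0 h1
  rcases le_total y (6 / 5) with h2 | h2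
  · exact nv_box b2 hx0 hx1 h1 h2
  exact nv_box b3 hx0 hx1 h2 htop

lemma strip22 {x y : ℝ} (hx0 : (369 / 100) ≤ x) (hx1 : x ≤ (19 / 5)) (hy : 0 ≤ y) (hn : ¬ Fpos x (y ^ 2)) :
    NV (⟨x, y⟩ : ℂ) := by
  have htop : y ≤ (29 / 20) := by
    by_contra hlt
    push Not at hlt
    have hsc : StripCond (369 / 100) (19 / 5) (841 / 400) (28561 / 10000) (529 / 100) := by
      unfold StripCond
      norm_num
    exact hn (fpos_strip hsc hx0 hx1 (by nlinarith))
  have b0 : BoxCond (369 / 100) (19 / 5) 0 (2 / 5) (52 / 25) (-9 / 100) (49 / 25) (36899 / 10000) := by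
    unfold BoxCond Cor nf
    norm_num
  have b1 : BoxCond (369 / 100) (19 / 5) (2 / 5) (4 / 5) (43 / 20) (-1 / 4) (103 / 50) (9279 / 2500) := by
    unfold BoxCond Cor nf
    norm_num
  have b2 : BoxCond (369 / 100) (19 / 5) (4 / 5) (6 / 5) (221 / 100) (-17 / 50) (54 / 25) (37757 / 10000) := by
    unfold BoxCond Cor nf
    norm_num
  have b3 : BoxCond (369 / 100) (19 / 5) (6 / 5) (29 / 20) (111 / 50) (-41 / 100) (219 / 100) (19401 / 5000) := by
    unfold BoxCond Cor nf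
    norm_num
  rcases le_total y (2 / 5) with h0 | h0
  · exact nv_box b0 hx0 hx1 hy h0
  rcases le_total y (4 / 5) with h1 | h1
  · exact nv_box b1 hx0 hx1 h0 h1
  rcases le_total y (6 / 5) with h2 | h2
  · exact nv_box b2 hx0 hx1 h1 h2
  exact nv_box b3 hx0 hx1 h2 htop

lemma strip23 {x y : ℝ} (hx0 : (19 / 5) ≤ x) (hx1 : x ≤ (391 / 100)) (hy : 0 ≤ y) (hn : ¬ Fpos x (y ^ 2)) :
    NV (⟨x, y⟩ : ℂ) := by
  have htop : y ≤ (137 / 100) := by
    by_contra hlt
    push Not at hlt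
    have hsc : StripCond (19 / 5) (391 / 100) (18769 / 10000) (81 / 25) (58081 / 10000) := by
      unfold StripCond
      norm_num
    exact hn (fpos_strip hsc hx0 hx1 (by nlinarith))
  have b0 : BoxCond (19 / 5) (391 / 100) 0 (2 / 5) (113 / 50) (-11 / 100) (107 / 50) (37999 / 10000) := by
    unfold BoxCond Cor nf
    norm_num
  have b1 : BoxCond (19 / 5) (391 / 100) (2 / 5) (4 / 5) (56 / 25) (-1 / 4) (43 / 20) (38209 / 10000) := by
    unfold BoxCond Cor nf
    norm_num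
  have b2 : BoxCond (19 / 5) (391 / 100) (4 / 5) (6 / 5) (52 / 25) (-33 / 100) (101 / 50) (2427 / 625) := by
    unfold BoxCond Cor nf
    norm_num
  have b3 : BoxCond (19 / 5) (391 / 100) (6 / 5) (137 / 100) (53 / 25) (-2 / 5) (207 / 100) (39849 / 10000) := by
    unfold BoxCond Cor nf
    norm_num
  rcases le_total y (2 / 5) with h0 | h0
  · exact nv_box b0 hx0 hx1 hy h0
  rcases le_total y (4 / 5) with h1 | h1
  · exact nv_box b1 hx0 hx1 h0 h1
  rcases le_total y (6 / 5) with h2 | h2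
  · exact nv_box b2 hx0 hx1 h1 h2
  exact nv_box b3 hx0 hx1 h2 htop

end Pool.Agent.X41.Stern
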