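import Pool.Agent.X41.Stern.Outer

/-! generated: the strips -/

namespace Pool.Agent.X41.Stern

lemma strip24 {x y : ℝ} (hx0 : (391 / 100) ≤ x) (hx1 : x ≤ (201 / 50)) (hy : 0 ≤ y) (hn : ¬ Fpos x (y ^ 2)) :
    NV (⟨x, y⟩ : ℂ) := by
  have htop : y ≤ (127 / 100) := by
    by_contra hlt
    push Not at hlt
    have hsc : StripCond (391 / 100) (201 / 50) (16129 / 10000) (36481 / 10000) (3969 / 625) := by
      unfold StripCond
      norm_num
    exact hn (fpos_strip hsc hx0 hx1 (by nlinarith))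
  have b0 : BoxCond (391 / 100) (201 / 50) 0 (2 / 5) (23 / 10) (-11 / 100) (109 / 50) (39099 / 10000) := by
    unfold BoxCond Cor nf
    norm_num
  have b1 : BoxCond (391 / 100) (201 / 50) (2 / 5) (4 / 5) (103 / 50) (-11 / 50) (49 / 25) (4913 / 1250) := by
    unfold BoxCond Cor nf
    norm_num
  have b2 : BoxCond (391 / 100) (201 / 50) (4 / 5) (6 / 5) (199 / 100) (-31 / 100) (48 / 25) (3991 / 1000) := by
    unfold BoxCond Cor nf
    norm_num
  have b3 : BoxCond (391 / 100) (201 / 50) (6 / 5) (127 / 100) (99 / 50) (-8 / 25) (189 / 100) (40899 / 10000) := by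
    unfold BoxCond Cor nf
    norm_num
  rcases le_total y (2 / 5) with h0 | h0
  · exact nv_box b0 hx0 hx1 hy h0
  rcases le_total y (4 / 5) with h1 | h1
  · exact nv_box b1 hx0 hx1 h0 h1
  rcases le_total y (6 / 5) with h2 | h2
  · exact nv_box b2 hx0 hx1 h1 h2
  exact nv_box b3 hx0 hx1 h2 htop

lemma strip25 {x y : ℝ} (hx0 : (201 / 50) ≤ x) (hx1 : x ≤ (413 / 100)) (hy : 0 ≤ y) (hn : ¬ Fpos x (y ^ 2)) :
    NV (⟨x, y⟩ : ℂ) := by
  have htop : y ≤ (29 / 25) := by
    by_contra hlt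
    push Not at hlt
    have hsc : StripCond (201 / 50) (413 / 100) (841 / 625) (10201 / 2500) (69169 / 10000) := by
      unfold StripCond
      norm_num
    exact hn (fpos_strip hsc hx0 hx1 (by nlinarith))
  have b0 : BoxCond (201 / 50) (413 / 100) 0 (2 / 5) (113 / 50) (-1 / 10) (43 / 20) (40199 / 10000) := by
    unfold BoxCond Cor nf
    norm_num
  have b1 : BoxCond (201 / 50) (413 / 100) (2 / 5) (4 / 5) (19 / 10) (-1 / 5) (9 / 5) (20199 / 5000) := by
    unfold BoxCond Cor nf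
    norm_num
  have b2 : BoxCond (201 / 50) (413 / 100) (4 / 5) (29 / 25) (29 / 20) (-21 / 100) (67 / 50) (10247 / 2500) := by
    unfold BoxCond Cor nf
    norm_num
  rcases le_total y (2 / 5) with h0 | h0
  · exact nv_box b0 hx0 hx1 hy h0
  rcases le_total y (4 / 5) with h1 | h1
  · exact nv_box b1 hx0 hx1 h0 h1
  exact nv_box b2 hx0 hx1 h1 htop

lemma strip26 {x y : ℝ} (hx0 : (413 / 100) ≤ x) (hx1 : x ≤ (106 / 25)) (hy : 0 ≤ y) (hn : ¬ Fpos x (y ^ 2)) :
    NV (⟨x, y⟩ : ℂ) := by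
  have htop : y ≤ (51 / 50) := by
    by_contra hlt
    push Not at hlt
    have hsc : StripCond (413 / 100) (106 / 25) (2601 / 2500) (45369 / 10000) (18769 / 2500) := by
      unfold StripCond
      norm_num
    exact hn (fpos_strip hsc hx0 hx1 (by nlinarith))
  have b0 : BoxCond (413 / 100) (106 / 25) 0 (2 / 5) (113 / 50) (-1 / 10) (43 / 20) (41299 / 10000) := by
    unfold BoxCond Cor nf
    norm_num
  have b1 : BoxCond (413 / 100) (106 / 25) (2 / 5) (4 / 5) (103 / 50) (-1 / 5) (49 / 25) (41493 / 10000) := by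
    unfold BoxCond Cor nf
    norm_num
  have b2 : BoxCond (413 / 100) (106 / 25) (4 / 5) (51 / 50) (91 / 50) (-6 / 25) (43 / 25) (42067 / 10000) := by
    unfold BoxCond Cor nf
    norm_num
  rcases le_total y (2 / 5) with h0 | h0
  · exact nv_box b0 hx0 hx1 hy h0
  rcases le_total y (4 / 5) with h1 | h1
  · exact nv_box b1 hx0 hx1 h0 h1
  exact nv_box b2 hx0 hx1 h1 htop

lemma strip27 {x y : ℝ} (hx0 : (106 / 25) ≤ x) (hx1 : x ≤ (87 / 20)) (hy : 0 ≤ y) (hn : ¬ Fpos x (y ^ 2)) :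
    NV (⟨x, y⟩ : ℂ) := by
  have htop : y ≤ (21 / 25) := by
    by_contra hlt
    push Not at hlt
    have hsc : StripCond (106 / 25) (87 / 20) (441 / 625) (3136 / 625) (3249 / 400) := by
      unfold StripCond
      norm_num
    exact hn (fpos_strip hsc hx0 hx1 (by nlinarith))
  have b0 : BoxCond (106 / 25) (87 / 20) 0 (2 / 5) (209 / 100) (-2 / 25) (99 / 50) (42399 / 10000) := by
    unfold BoxCond Cor nf
    norm_num
  have b1 : BoxCond (106 / 25) (87 / 20) (2 / 5) (4 / 5) (159 / 100) (-3 / 20) (37 / 25) (10647 / 2500) := by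
    unfold BoxCond Cor nf
    norm_num
  have b2 : BoxCond (106 / 25) (87 / 20) (4 / 5) (21 / 25) (39 / 20) (-1 / 5) (46 / 25) (10787 / 2500) := by
    unfold BoxCond Cor nf
    norm_num
  rcases le_total y (2 / 5) with h0 | h0
  · exact nv_box b0 hx0 hx1 hy h0
  rcases le_total y (4 / 5) with h1 | h1
  · exact nv_box b1 hx0 hx1 h0 h1
  exact nv_box b2 hx0 hx1 h1 htop

lemma strip28 {x y : ℝ} (hx0 : (87 / 20) ≤ x) (hx1 : x ≤ (22 / 5)) (hy : 0 ≤ y) (hn : ¬ Fpos x (y ^ 2)) :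
    NV (⟨x, y⟩ : ℂ) := by
  have htop : y ≤ (31 / 100) := by
    by_contra hlt
    push Not at hlt
    have hsc : StripCond (87 / 20) (22 / 5) (961 / 10000) (2209 / 400) (841 / 100) := by
      unfold StripCond
      norm_num
    exact hn (fpos_strip hsc hx0 hx1 (by nlinarith))
  have b0 : BoxCond (87 / 20) (22 / 5) 0 (31 / 100) (51 / 20) (-1 / 10) (243 / 100) (43499 / 10000) := by
    unfold BoxCond Cor nf
    norm_num
  exact nv_box b0 hx0 hx1 hy htop

end Pool.Agent.X41.Stern
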