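import Pool.Agent.X41.Stern.Strips0
import Pool.Agent.X41.Stern.Strips1
import Pool.Agent.X41.Stern.Strips2
import Pool.Agent.X41.Stern.Strips3

/-! # The zero-free region -/

namespace Pool.Agent.X41.Stern

lemma fpos_left {x u : ℝ} (hx : x ≤ (129 / 100)) (hu : 0 ≤ u) : Fpos x u := by
  obtain ⟨p, hp, rfl⟩ : ∃ p : ℝ, 0 ≤ p ∧ x = (129 / 100) - p := ⟨(129 / 100) - x, by linarith, by ring⟩
  unfold Fpos
  rw [← sub_pos]
  have e : (((129 / 100) - p - 2) ^ 2 + u) ^ 4 - (((129 / 100) - p - 1) ^ 2 + u) * (u ^ 2 + u * (2 * ((129 / 100) - p - 3 / 2) ^ 2 - 3 / 2) +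
      (((129 / 100) - p - 3 / 2) ^ 2 + 3 / 4) ^ 2) = (115423296035761 / 10000000000000000) + (134676421 / 250000000000) * u ^ 1 + (142620043 / 50000000) * u ^ 2 + (2541 / 2500) * u ^ 3 + 1 * u ^ 4 + (12965702525891 / 12500000000000) * p ^ 1 + (3467023053 / 1250000000) * p ^ 1 * u ^ 1 + (1041233 / 125000) * p ^ 1 * u ^ 2 + (142 / 25) * p ^ 1 * u ^ 3 + (798673949947 / 250000000000) * p ^ 2 + (76066043 / 5000000) * p ^ 2 * u ^ 1 + (37869 / 2500) * p ^ 2 * u ^ 2 + 4 * p ^ 2 * u ^ 3 + (12986830457 / 1250000000) * p ^ 3 + (351411 / 12500) * p ^ 3 * u ^ 1 + (426 / 25) * p ^ 3 * u ^ 2 + (164266767 / 10000000) * p ^ 4 + (13623 / 500) * p ^ 4 * u ^ 1 + 6 * p ^ 4 * u ^ 2 + (2472877 / 125000) * p ^ 5 + (426 / 25) * p ^ 5 * u ^ 1 + (32787 / 2500) * p ^ 6 + 4 * p ^ 6 * u ^ 1 + (142 / 25) * p ^ 7 + 1 * p ^ 8 := by ring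
  rw [e]
  positivity

lemma fpos_right {x u : ℝ} (hx : (22 / 5) ≤ x) (hu : 0 ≤ u) : Fpos x u := by
  obtain ⟨p, hp, rfl⟩ : ∃ p : ℝ, 0 ≤ p ∧ x = (22 / 5) + p := ⟨x - (22 / 5), by linarith, by ring⟩
  unfold Fpos
  rw [← sub_pos]
  have e : (((22 / 5) + p - 2) ^ 2 + u) ^ 4 - (((22 / 5) + p - 1) ^ 2 + u) * (u ^ 2 + u * (2 * ((22 / 5) + p - 3 / 2) ^ 2 - 3 / 2) +
      (((22 / 5) + p - 3 / 2) ^ 2 + 3 / 4) ^ 2) = (51095471 / 390625) + (7865736 / 15625) * u ^ 1 + (107616 / 625) * u ^ 2 + (551 / 25) * u ^ 3 + 1 * u ^ 4 + (146117164 / 78125) * p ^ 1 + (4895318 / 3125) * p ^ 1 * u ^ 1 + (39172 / 125) * p ^ 1 * u ^ 2 + (96 / 5) * p ^ 1 * u ^ 3 + (61621552 / 15625) * p ^ 2 + (227672 / 125) * p ^ 2 * u ^ 1 + (5109 / 25) * p ^ 2 * u ^ 2 + 4 * p ^ 2 * u ^ 3 + (12079342 / 3125) * p ^ 3 + (26728 / 25) * p ^ 3 * u ^ 1 + (288 / 5) * p ^ 3 * u ^ 2 + (272504 / 125) * p ^ 4 + (1713 / 5) * p ^ 4 * u ^ 1 + 6 * p ^ 4 * u ^ 2 + (94468 / 125) * p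 ^ 5 + (288 / 5) * p ^ 5 * u ^ 1 + (4007 / 25) * p ^ 6 + 4 * p ^ 6 * u ^ 1 + (96 / 5) * p ^ 7 + 1 * p ^ 8 := by ring
  rw [e]
  positivity

/-- in the upper half plane: either the auxiliary inequality or nonvanishing -/
theorem nv_upper {x y : ℝ} (hy : 0 ≤ y) (hn : ¬ Fpos x (y ^ 2)) : NV (⟨x, y⟩ : ℂ) := by
  rcases le_total x (129 / 100) with h | hx0
  · exact absurd (fpos_left h (sq_nonneg y)) hn
  rcases le_total (22 / 5) x with h | hxr
  · exact absurd (fpos_right h (sq_nonneg y)) hn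
  rcases le_total x (69 / 50) with h0 | h0
  · exact strip0 hx0 h0 hy hn
  rcases le_total x (149 / 100) with h1 | h1
  · exact strip1 h0 h1 hy hn
  rcases le_total x (8 / 5) with h2 | h2
  · exact strip2 h1 h2 hy hn
  rcases le_total x (171 / 100) with h3 | h3
  · exact strip3 h2 h3 hy hn
  rcases le_total x (91 / 50) with h4 | h4
  · exact strip4 h3 h4 hy hn
  rcases le_total x (193 / 100) with h5 | h5
  · exact strip5 h4 h5 hy hn
  rcases le_total x (51 / 25) with h6 | h6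
  · exact strip6 h5 h6 hy hn
  rcases le_total x (43 / 20) with h7 | h7
  · exact strip7 h6 h7 hy hn
  rcases le_total x (113 / 50) with h8 | h8
  · exact strip8 h7 h8 hy hn
  rcases le_total x (237 / 100) with h9 | h9
  · exact strip9 h8 h9 hy hn
  rcases le_total x (62 / 25) with h10 | h10
  · exact strip10 h9 h10 hy hn
  rcases le_total x (259 / 100) with h11 | h11
  · exact strip11 h10 h11 hy hn
  rcases le_total x (27 / 10) with h12 | h12
  · exact strip12 h11 h12 hy hn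
  rcases le_total x (281 / 100) with h13 | h13
  · exact strip13 h12 h13 hy hn
  rcases le_total x (73 / 25) with h14 | h14
  · exact strip14 h13 h14 hy hn
  rcases le_total x (303 / 100) with h15 | h15
  · exact strip15 h14 h15 hy hn
  rcases le_total x (157 / 50) with h16 | h16
  · exact strip16 h15 h16 hy hn
  rcases le_total x (13 / 4) with h17 | h17
  · exact strip17 h16 h17 hy hn
  rcases le_total x (84 / 25) with h18 | h18
  · exact strip18 h17 h18 hy hn
  rcases le_total x (347 / 100) with h19 | h19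
  · exact strip19 h18 h19 hy hn
  rcases le_total x (179 / 50) with h20 | h20
  · exact strip20 h19 h20 hy hn
  rcases le_total x (369 / 100) with h21 | h21
  · exact strip21 h20 h21 hy hn
  rcases le_total x (19 / 5) with h22 | h22
  · exact strip22 h21 h22 hy hn
  rcases le_total x (391 / 100) with h23 | h23
  · exact strip23 h22 h23 hy hn
  rcases le_total x (201 / 50) with h24 | h24
  · exact strip24 h23 h24 hy hn
  rcases le_total x (413 / 100) with h25 | h25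
  · exact strip25 h24 h25 hy hn
  rcases le_total x (106 / 25) with h26 | h26
  · exact strip26 h25 h26 hy hn
  rcases le_total x (87 / 20) with h27 | h27
  · exact strip27 h26 h27 hy hn
  exact strip28 h27 hxr hy hn

end Pool.Agent.X41.Stern
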