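import Pool.Agent.X41.Stern.Outer

/-! generated: the strips -/

namespace Pool.Agent.X41.Stern

lemma strip0 {x y : ℝ} (hx0 : (129 / 100) ≤ x) (hx1 : x ≤ (69 / 50)) (hy : 0 ≤ y) (hn : ¬ Fpos x (y ^ 2)) :
    NV (⟨x, y⟩ : ℂ) := by
  have htop : y ≤ (12 / 25) := by
    by_contra hlt
    push Not at hlt
    have hsc : StripCond (129 / 100) (69 / 50) (144 / 625) (961 / 2500) (441 / 10000) := by
      unfold StripCond
      norm_num
    exact hn (fpos_strip hsc hx0 hx1 (by nlinarith))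
  have b0 : BoxCond (129 / 100) (69 / 50) 0 (3 / 10) (7 / 2) (-39 / 50) (333 / 100) (12899 / 10000) := by
    unfold BoxCond Cor nf
    norm_num
  have b1 : BoxCond (129 / 100) (69 / 50) (3 / 10) (2 / 5) (66 / 25) (-97 / 100) (63 / 25) (3311 / 2500) := by
    unfold BoxCond Cor nf
    norm_num
  have b2 : BoxCond (129 / 100) (69 / 50) (2 / 5) (9 / 20) (123 / 50) (-21 / 20) (59 / 25) (2701 / 2000) := by
    unfold BoxCond Cor nf
    norm_num
  have b3 : BoxCond (129 / 100) (69 / 50) (9 / 20) (47 / 100) (12 / 5) (-107 / 100) (58 / 25) (6831 / 5000) := by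
    unfold BoxCond Cor nf
    norm_num
  have b4 : BoxCond (129 / 100) (69 / 50) (47 / 100) (12 / 25) (117 / 50) (-109 / 100) (9 / 4) (13729 / 10000) := by
    unfold BoxCond Cor nf
    norm_num
  rcases le_total y (3 / 10) with h0 | h0
  · exact nv_box b0 hx0 hx1 hy h0
  rcases le_total y (2 / 5) with h1 | h1
  · exact nv_box b1 hx0 hx1 h0 h1
  rcases le_total y (9 / 20) with h2 | h2
  · exact nv_box b2 hx0 hx1 h1 h2
  rcases le_total y (47 / 100) with h3 | h3
  · exact nv_box b3 hx0 hx1 h2 h3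
  exact nv_box b4 hx0 hx1 h3 htop

lemma strip1 {x y : ℝ} (hx0 : (69 / 50) ≤ x) (hx1 : x ≤ (149 / 100)) (hy : 0 ≤ y) (hn : ¬ Fpos x (y ^ 2)) :
    NV (⟨x, y⟩ : ℂ) := by
  have htop : y ≤ (29 / 50) := by
    by_contra hlt
    push Not at hlt
    have hsc : StripCond (69 / 50) (149 / 100) (841 / 2500) (2601 / 10000) (9 / 625) := by
      unfold StripCond
      norm_num
    exact hn (fpos_strip hsc hx0 hx1 (by nlinarith))
  have b0 : BoxCond (69 / 50) (149 / 100) 0 (2 / 5) (237 / 100) (-12 / 25) (213 / 100) (13799 / 10000) := by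
    unfold BoxCond Cor nf
    norm_num
  have b1 : BoxCond (69 / 50) (149 / 100) (2 / 5) (13 / 25) (213 / 100) (-79 / 100) (99 / 50) (898 / 625) := by
    unfold BoxCond Cor nf
    norm_num
  have b2 : BoxCond (69 / 50) (149 / 100) (13 / 25) (29 / 50) (51 / 25) (-83 / 100) (193 / 100) (14747 / 10000) := by
    unfold BoxCond Cor nf
    norm_num
  rcases le_total y (2 / 5) with h0 | h0
  · exact nv_box b0 hx0 hx1 hy h0
  rcases le_total y (13 / 25) with h1 | h1
  · exact nv_box b1 hx0 hx1 h0 h1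
  exact nv_box b2 hx0 hx1 h1 htop

lemma strip2 {x y : ℝ} (hx0 : (149 / 100) ≤ x) (hx1 : x ≤ (8 / 5)) (hy : 0 ≤ y) (hn : ¬ Fpos x (y ^ 2)) :
    NV (⟨x, y⟩ : ℂ) := by
  have htop : y ≤ (13 / 20) := by
    by_contra hlt
    push Not at hlt
    have hsc : StripCond (149 / 100) (8 / 5) (169 / 400) (4 / 25) (1 / 100) := by
      unfold StripCond
      norm_num
    exact hn (fpos_strip hsc hx0 hx1 (by nlinarith))
  have b0 : BoxCond (149 / 100) (8 / 5) 0 (2 / 5) (58 / 25) (-39 / 100) (209 / 100) (14899 / 10000) := by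
    unfold BoxCond Cor nf
    norm_num
  have b1 : BoxCond (149 / 100) (8 / 5) (2 / 5) (3 / 5) (191 / 100) (-33 / 50) (173 / 100) (15427 / 10000) := by
    unfold BoxCond Cor nf
    norm_num
  have b2 : BoxCond (149 / 100) (8 / 5) (3 / 5) (13 / 20) (39 / 20) (-4 / 5) (46 / 25) (8031 / 5000) := by
    unfold BoxCond Cor nf
    norm_num
  rcases le_total y (2 / 5) with h0 | h0
  · exact nv_box b0 hx0 hx1 hy h0
  rcases le_total y (3 / 5) with h1 | h1
  · exact nv_box b1 hx0 hx1 h0 h1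
  exact nv_box b2 hx0 hx1 h1 htop

lemma strip3 {x y : ℝ} (hx0 : (8 / 5) ≤ x) (hx1 : x ≤ (171 / 100)) (hy : 0 ≤ y) (hn : ¬ Fpos x (y ^ 2)) :
    NV (⟨x, y⟩ : ℂ) := by
  have htop : y ≤ (3 / 4) := by
    by_contra hlt
    push Not at hlt
    have hsc : StripCond (8 / 5) (171 / 100) (9 / 16) (841 / 10000) (441 / 10000) := by
      unfold StripCond
      norm_num
    exact hn (fpos_strip hsc hx0 hx1 (by nlinarith))
  have b0 : BoxCond (8 / 5) (171 / 100) 0 (2 / 5) (229 / 100) (-3 / 10) (52 / 25) (15999 / 10000) := by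
    unfold BoxCond Cor nf
    norm_num
  have b1 : BoxCond (8 / 5) (171 / 100) (2 / 5) (13 / 20) (201 / 100) (-61 / 100) (187 / 100) (4123 / 2500) := by
    unfold BoxCond Cor nf
    norm_num
  have b2 : BoxCond (8 / 5) (171 / 100) (13 / 20) (3 / 4) (183 / 100) (-71 / 100) (43 / 25) (17269 / 10000) := by
    unfold BoxCond Cor nf
    norm_num
  rcases le_total y (2 / 5) with h0 | h0
  · exact nv_box b0 hx0 hx1 hy h0
  rcases le_total y (13 / 20) with h1 | h1
  · exact nv_box b1 hx0 hx1 h0 h1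
  exact nv_box b2 hx0 hx1 h1 htop

lemma strip4 {x y : ℝ} (hx0 : (171 / 100) ≤ x) (hx1 : x ≤ (91 / 50)) (hy : 0 ≤ y) (hn : ¬ Fpos x (y ^ 2)) :
    NV (⟨x, y⟩ : ℂ) := by
  have htop : y ≤ (9 / 10) := by
    by_contra hlt
    push Not at hlt
    have hsc : StripCond (171 / 100) (91 / 50) (81 / 100) (81 / 2500) (64 / 625) := by
      unfold StripCond
      norm_num
    exact hn (fpos_strip hsc hx0 hx1 (by nlinarith))
  have b0 : BoxCond (171 / 100) (91 / 50) 0 (2 / 5) (48 / 25) (-17 / 100) (169 / 100) (17099 / 10000) := by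
    unfold BoxCond Cor nf
    norm_num
  have b1 : BoxCond (171 / 100) (91 / 50) (2 / 5) (3 / 4) (151 / 100) (-9 / 20) (127 / 100) (17561 / 10000) := by
    unfold BoxCond Cor nf
    norm_num
  have b2 : BoxCond (171 / 100) (91 / 50) (3 / 4) (9 / 10) (147 / 100) (-3 / 5) (131 / 100) (1167 / 625) := by
    unfold BoxCond Cor nf
    norm_num
  rcases le_total y (2 / 5) with h0 | h0
  · exact nv_box b0 hx0 hx1 hy h0
  rcases le_total y (3 / 4) with h1 | h1
  · exact nv_box b1 hx0 hx1 h0 h1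
  exact nv_box b2 hx0 hx1 h1 htop

lemma strip5 {x y : ℝ} (hx0 : (91 / 50) ≤ x) (hx1 : x ≤ (193 / 100)) (hy : 0 ≤ y) (hn : ¬ Fpos x (y ^ 2)) :
    NV (⟨x, y⟩ : ℂ) := by
  have htop : y ≤ (27 / 25) := by
    by_contra hlt
    push Not at hlt
    have hsc : StripCond (91 / 50) (193 / 100) (729 / 625) (49 / 10000) (1849 / 10000) := by
      unfold StripCond
      norm_num
    exact hn (fpos_strip hsc hx0 hx1 (by nlinarith))
  have b0 : BoxCond (91 / 50) (193 / 100) 0 (2 / 5) (203 / 100) (-3 / 20) (183 / 100) (18199 / 10000) := by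
    unfold BoxCond Cor nf
    norm_num
  have b1 : BoxCond (91 / 50) (193 / 100) (2 / 5) (4 / 5) (141 / 100) (-19 / 50) (29 / 25) (9317 / 5000) := by
    unfold BoxCond Cor nf
    norm_num
  have b2 : BoxCond (91 / 50) (193 / 100) (4 / 5) 1 (133 / 100) (-13 / 25) (23 / 20) (497 / 250) := by
    unfold BoxCond Cor nf
    norm_num
  have b3 : BoxCond (91 / 50) (193 / 100) 1 (27 / 25) (32 / 25) (-53 / 100) (28 / 25) (10383 / 5000) := by
    unfold BoxCond Cor nf
    norm_num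
  rcases le_total y (2 / 5) with h0 | h0
  · exact nv_box b0 hx0 hx1 hy h0
  rcases le_total y (4 / 5) with h1 | h1
  · exact nv_box b1 hx0 hx1 h0 h1
  rcases le_total y 1 with h2 | h2
  · exact nv_box b2 hx0 hx1 h1 h2
  exact nv_box b3 hx0 hx1 h2 htop

lemma strip6 {x y : ℝ} (hx0 : (193 / 100) ≤ x) (hx1 : x ≤ (51 / 25)) (hy : 0 ≤ y) (hn : ¬ Fpos x (y ^ 2)) :
    NV (⟨x, y⟩ : ℂ) := by
  have htop : y ≤ (123 / 100) := by
    by_contra hlt
    push Not at hlt
    have hsc : StripCond (193 / 100) (51 / 25) (15129 / 10000) 0 (729 / 2500) := by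
      unfold StripCond
      norm_num
    exact hn (fpos_strip hsc hx0 hx1 (by nlinarith))
  have b0 : BoxCond (193 / 100) (51 / 25) 0 (2 / 5) 2 (-7 / 50) (9 / 5) (19299 / 10000) := by
    unfold BoxCond Cor nf
    norm_num
  have b1 : BoxCond (193 / 100) (51 / 25) (2 / 5) (4 / 5) (87 / 50) (-41 / 100) (79 / 50) (1971 / 1000) := by
    unfold BoxCond Cor nf
    norm_num
  have b2 : BoxCond (193 / 100) (51 / 25) (4 / 5) 1 (161 / 100) (-13 / 25) (3 / 2) (5223 / 2500) := by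
    unfold BoxCond Cor nf
    norm_num
  have b3 : BoxCond (193 / 100) (51 / 25) 1 (57 / 50) (131 / 100) (-53 / 100) (117 / 100) (2717 / 1250) := by
    unfold BoxCond Cor nf
    norm_num
  have b4 : BoxCond (193 / 100) (51 / 25) (57 / 50) (123 / 100) (29 / 25) (-51 / 100) 1 (4483 / 2000) := by
    unfold BoxCond Cor nf
    norm_num
  rcases le_total y (2 / 5) with h0 | h0
  · exact nv_box b0 hx0 hx1 hy h0
  rcases le_total y (4 / 5) with h1 | h1
  · exact nv_box b1 hx0 hx1 h0 h1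
  rcases le_total y 1 with h2 | h2
  · exact nv_box b2 hx0 hx1 h1 h2
  rcases le_total y (57 / 50) with h3 | h3
  · exact nv_box b3 hx0 hx1 h2 h3
  exact nv_box b4 hx0 hx1 h3 htop

lemma strip7 {x y : ℝ} (hx0 : (51 / 25) ≤ x) (hx1 : x ≤ (43 / 20)) (hy : 0 ≤ y) (hn : ¬ Fpos x (y ^ 2)) :
    NV (⟨x, y⟩ : ℂ) := by
  have htop : y ≤ (27 / 20) := by
    by_contra hlt
    push Not at hlt
    have hsc : StripCond (51 / 25) (43 / 20) (729 / 400) (1 / 625) (169 / 400) := by
      unfold StripCond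
      norm_num
    exact hn (fpos_strip hsc hx0 hx1 (by nlinarith))
  have b0 : BoxCond (51 / 25) (43 / 20) 0 (2 / 5) (91 / 50) (-3 / 25) (8 / 5) (20399 / 10000) := by
    unfold BoxCond Cor nf
    norm_num
  have b1 : BoxCond (51 / 25) (43 / 20) (2 / 5) (4 / 5) (33 / 20) (-7 / 20) (37 / 25) (5197 / 2500) := by
    unfold BoxCond Cor nf
    norm_num
  have b2 : BoxCond (51 / 25) (43 / 20) (4 / 5) (21 / 20) (149 / 100) (-47 / 100) (34 / 25) (2739 / 1250) := by
    unfold BoxCond Cor nf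
    norm_num
  have b3 : BoxCond (51 / 25) (43 / 20) (21 / 20) (61 / 50) (31 / 25) (-23 / 50) (109 / 100) (22943 / 10000) := by
    unfold BoxCond Cor nf
    norm_num
  have b4 : BoxCond (51 / 25) (43 / 20) (61 / 50) (67 / 50) (59 / 50) (-13 / 25) (21 / 20) (23769 / 10000) := by
    unfold BoxCond Cor nf
    norm_num
  have b5 : BoxCond (51 / 25) (43 / 20) (67 / 50) (27 / 20) (11 / 10) (-1 / 2) (19 / 20) (24407 / 10000) := by
    unfold BoxCond Cor nf
    norm_num
  rcases le_total y (2 / 5) with h0 | h0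
  · exact nv_box b0 hx0 hx1 hy h0
  rcases le_total y (4 / 5) with h1 | h1
  · exact nv_box b1 hx0 hx1 h0 h1
  rcases le_total y (21 / 20) with h2 | h2
  · exact nv_box b2 hx0 hx1 h1 h2
  rcases le_total y (61 / 50) with h3 | h3
  · exact nv_box b3 hx0 hx1 h2 h3
  rcases le_total y (67 / 50) with h4 | h4
  · exact nv_box b4 hx0 hx1 h3 h4
  exact nv_box b5 hx0 hx1 h4 htop

end Pool.Agent.X41.Stern
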